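import Pool.Agent.Helper84.Thresh.Overlap

/-!
The threshold and the curve of the equivocation.
-/

set_option autoImplicit false

namespace Pool.Agent.Helper84.Thresh

open Finset Filter Topology
open Pool.Agent.Helper89K9.GV (kern mix eqv pe kern_nonneg kern_pos mix_pos eqv_nonneg eqv_le_log
  log_card_le single_code ex sum_ex sum_mix sum_kern)
open Pool.Agent.Results.MP_0430e4_lc.ConstantWeightCriterion (IsCode H A R)

/-- the largest error probability of a code of length `n` with minimum distance at least `δ n` -/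
noncomputable def worst (δ p : ℝ) (n : ℕ) : ℝ :=
  sSup {r : ℝ | ∃ C : Finset (Fin n → Bool), C.Nonempty ∧ IsCode ⌈δ * n⌉₊ C ∧ r = optErr p C}

/-- the threshold -/
noncomputable def th (δ : ℝ) : ℝ :=
  sSup {p : ℝ | 0 < p ∧ p < 1 / 2 ∧ Tendsto (fun n => worst δ p n) atTop (𝓝 0)}

/-- the largest equivocation -/
noncomputable def mE (δ p : ℝ) (n : ℕ) : ℝ :=
  sSup {r : ℝ | ∃ C : Finset (Fin n → Bool), C.Nonempty ∧ IsCode ⌈δ * n⌉₊ C ∧ r = eqv p C}

/-- its rate -/
noncomputable def Er (δ p : ℝ) : ℝ := limsup (fun n : ℕ => mE δ p n / n) atTop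

/-- the lower bound of the slope -/
noncomputable def lam (δ p : ℝ) : ℝ :=
  4 * δ * p * (1 - p) / (2 * p * (1 - p) - δ * (1 - 2 * p) ^ 2)

section fixed

variable {n : ℕ}

lemma single_nonempty : ({fun _ => false} : Finset (Fin n → Bool)).Nonempty :=
  Finset.singleton_nonempty _

lemma le_worst {δ p : ℝ} (h0 : 0 < p) (h1 : p < 1) {C : Finset (Fin n → Bool)}
    (hC : C.Nonempty) (hcode : IsCode ⌈δ * n⌉₊ C) : optErr p C ≤ worst δ p n :=
  le_csSup ⟨1, by rintro r ⟨D, hD, -, rfl⟩; exact optErr_le_one h0.le h1.le hD⟩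
    ⟨C, hC, hcode, rfl⟩

lemma exists_worst (δ p : ℝ) (n : ℕ) : ∃ C : Finset (Fin n → Bool), C.Nonempty ∧
    IsCode ⌈δ * n⌉₊ C ∧ optErr p C = worst δ p n := by
  have hfin : {r : ℝ | ∃ C : Finset (Fin n → Bool), C.Nonempty ∧ IsCode ⌈δ * n⌉₊ C ∧
      r = optErr p C}.Finite :=
    (Set.finite_range (fun C : Finset (Fin n → Bool) => optErr p C)).subset (by
      rintro r ⟨C, -, -, rfl⟩
      exact ⟨C, rfl⟩)
  have hne : {r : ℝ | ∃ C : Finset (Fin n → Bool), C.Nonempty ∧ IsCode ⌈δ * n⌉₊ C ∧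
      r = optErr p C}.Nonempty := ⟨_, _, single_nonempty, single_code _ _, rfl⟩
  obtain ⟨C, h1, h2, h3⟩ := hne.csSup_mem hfin
  exact ⟨C, h1, h2, h3.symm⟩

lemma exists_mE (δ p : ℝ) (n : ℕ) : ∃ C : Finset (Fin n → Bool), C.Nonempty ∧
    IsCode ⌈δ * n⌉₊ C ∧ eqv p C = mE δ p n := by
  have hfin : {r : ℝ | ∃ C : Finset (Fin n → Bool), C.Nonempty ∧ IsCode ⌈δ * n⌉₊ C ∧
      r = eqv p C}.Finite :=
    (Set.finite_range (fun C : Finset (Fin n → Bool) => eqv p C)).subset (by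
      rintro r ⟨C, -, -, rfl⟩
      exact ⟨C, rfl⟩)
  have hne : {r : ℝ | ∃ C : Finset (Fin n → Bool), C.Nonempty ∧ IsCode ⌈δ * n⌉₊ C ∧
      r = eqv p C}.Nonempty := ⟨_, _, single_nonempty, single_code _ _, rfl⟩
  obtain ⟨C, h1, h2, h3⟩ := hne.csSup_mem hfin
  exact ⟨C, h1, h2, h3.symm⟩

lemma le_mE {δ p : ℝ} (h0 : 0 < p) (h1 : p < 1) {C : Finset (Fin n → Bool)}
    (hC : C.Nonempty) (hcode : IsCode ⌈δ * n⌉₊ C) : eqv p C ≤ mE δ p n :=
  le_csSup ⟨n, by
    rintro r ⟨D, hD, -, rfl⟩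
    exact (eqv_le_log h0 h1 hD).trans (log_card_le D)⟩ ⟨C, hC, hcode, rfl⟩

lemma worst_nonneg {δ p : ℝ} (h0 : 0 < p) (h1 : p < 1) (n : ℕ) : 0 ≤ worst δ p n := by
  obtain ⟨C, -, -, h⟩ := exists_worst δ p n
  rw [← h]
  exact optErr_nonneg h0.le h1.le C

end fixed

lemma mE_mem {δ p : ℝ} (h0 : 0 < p) (h1 : p < 1) (n : ℕ) :
    0 ≤ mE δ p n / n ∧ mE δ p n / n ≤ 1 := by
  obtain ⟨C, hC, -, h⟩ := exists_mE δ p n
  rw [← h]
  refine ⟨div_nonneg (eqv_nonneg h0 h1 _) (Nat.cast_nonneg _), ?_⟩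
  rcases Nat.eq_zero_or_pos n with hn | hn
  · subst hn; simp
  have hn' : (0 : ℝ) < n := by exact_mod_cast hn
  rw [div_le_one hn']
  exact (eqv_le_log h0 h1 hC).trans (log_card_le C)

open Pool.Agent.Results.MP_0430e4_lc.ConstantWeightCriterion (bdd_le bdd_ge)

lemma Er_le {δ p b : ℝ} (h0 : 0 < p) (h1 : p < 1) (h : ∀ᶠ n : ℕ in atTop, mE δ p n ≤ b * n) :
    Er δ p ≤ b := by
  apply limsup_le_of_le (bdd_ge (mE_mem h0 h1)).isCoboundedUnder_flip
  filter_upwards [h, eventually_ge_atTop 1] with n hn hn1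
  have hn0 : (0 : ℝ) < n := by exact_mod_cast hn1
  rw [div_le_iff₀ hn0]
  exact hn

lemma le_Er {δ p b : ℝ} (h0 : 0 < p) (h1 : p < 1) (h : ∃ᶠ n : ℕ in atTop, b * n ≤ mE δ p n) :
    b ≤ Er δ p := by
  apply le_limsup_of_frequently_le _ (bdd_le (mE_mem h0 h1))
  refine (h.and_eventually (eventually_ge_atTop 1)).mono ?_
  rintro n ⟨hn, hn1⟩
  have hn0 : (0 : ℝ) < n := by exact_mod_cast hn1
  rw [le_div_iff₀ hn0]
  exact hn

lemma Er_lt {δ p b : ℝ} (h0 : 0 < p) (h1 : p < 1) (h : Er δ p < b) :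
    ∀ᶠ n : ℕ in atTop, mE δ p n ≤ b * n := by
  filter_upwards [eventually_lt_of_limsup_lt h (bdd_le (mE_mem h0 h1)), eventually_ge_atTop 1]
    with n hn hn1
  have hn0 : (0 : ℝ) < n := by exact_mod_cast hn1
  rw [div_lt_iff₀ hn0] at hn
  exact hn.le

lemma lt_Er {δ p b : ℝ} (h0 : 0 < p) (h1 : p < 1) (h : b < Er δ p) :
    ∃ᶠ n : ℕ in atTop, b * n ≤ mE δ p n := by
  have h2 := frequently_lt_of_lt_limsup (bdd_ge (mE_mem h0 h1)).isCoboundedUnder_flip h
  refine (h2.and_eventually (eventually_ge_atTop 1)).mono ?_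
  rintro n ⟨hn, hn1⟩
  have hn0 : (0 : ℝ) < n := by exact_mod_cast hn1
  rw [lt_div_iff₀ hn0] at hn
  exact hn.le

lemma Er_nonneg {δ p : ℝ} (h0 : 0 < p) (h1 : p < 1) : 0 ≤ Er δ p := by
  apply le_Er h0 h1
  apply Eventually.frequently
  filter_upwards [eventually_ge_atTop 1] with n hn1
  have hn0 : (0 : ℝ) < n := by exact_mod_cast hn1
  have := (mE_mem (δ := δ) h0 h1 n).1
  rw [le_div_iff₀ hn0] at this
  linarith

lemma H_mono {p p' : ℝ} (h0 : 0 < p) (hpp : p ≤ p') (hp' : p' ≤ 1 / 2) : H p ≤ H p' := by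
  have hlog : 0 < Real.log 2 := Real.log_pos (by norm_num)
  have h := Real.binEntropy_strictMonoOn.monotoneOn (a := p) (b := p')
    ⟨h0.le, by norm_num at hp' ⊢; linarith⟩ ⟨by linarith, by norm_num at hp' ⊢; linarith⟩ hpp
  rw [← H_log p, ← H_log p'] at h
  exact le_of_mul_le_mul_right h hlog

lemma H_lt {p p' : ℝ} (h0 : 0 ≤ p) (hpp : p < p') (hp' : p' ≤ 1 / 2) : H p < H p' := by
  have hlog : 0 < Real.log 2 := Real.log_pos (by norm_num)
  have h := Real.binEntropy_strictMonoOn (a := p) (b := p')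
    ⟨h0, by norm_num at hp' ⊢; linarith⟩ ⟨by linarith, by norm_num at hp' ⊢; linarith⟩ hpp
  rw [← H_log p, ← H_log p'] at h
  exact lt_of_mul_lt_mul_right h hlog.le

lemma H_half : H (1 / 2) = 1 := by
  have hlog : Real.log 2 ≠ 0 := (Real.log_pos (by norm_num)).ne'
  have h := H_log (1 / 2)
  rw [one_div, Real.binEntropy_two_inv] at h
  rw [one_div]
  field_simp at h
  linarith

/-- the slope is at most one -/
lemma Er_up {δ p p' : ℝ} (h0 : 0 < p) (hp : p < 1 / 2) (hpp : p ≤ p') (hp' : p' ≤ 1 / 2) :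
    Er δ p' ≤ Er δ p + (H p' - H p) := by
  apply le_of_forall_pos_le_add
  intro ε hε
  apply Er_le (by linarith) (by linarith)
  filter_upwards [Er_lt h0 (by linarith : p < 1) (by linarith : Er δ p < Er δ p + ε)] with n hn
  obtain ⟨C, hC, hcode, hE⟩ := exists_mE δ p' n
  rw [← hE]
  have h1 := eqv_up h0 hp hpp hp' hC
  have h2 := le_mE h0 (by linarith : p < 1) hC hcode
  nlinarith

/-- the curve is increasing -/
lemma Er_mono {δ p p' : ℝ} (h0 : 0 < p) (hp : p < 1 / 2) (hpp : p ≤ p') (hp' : p' ≤ 1 / 2) :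
    Er δ p ≤ Er δ p' := by
  apply le_of_forall_pos_le_add
  intro ε hε
  have h : Er δ p - ε ≤ Er δ p' := by
    apply le_Er (by linarith) (by linarith)
    refine (lt_Er h0 (by linarith : p < 1) (by linarith : Er δ p - ε < Er δ p)).mono ?_
    intro n hn
    obtain ⟨C, hC, hcode, hE⟩ := exists_mE δ p n
    rw [← hE] at hn
    have hc : (0 : ℝ) < C.card := by exact_mod_cast hC.card_pos
    have h1 := eqv_down h0 hp hpp hp' hC
    have h2 := Ds_le h0 hp hC
    have h3 : Ds (mix p C) / (2 * (1 - 2 * p) ^ 2) / C.card ≤ n := by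
      rw [div_le_iff₀ hc]
      exact h2
    have h4 := le_mE (p := p') (δ := δ) (by linarith) (by linarith : p' < 1) hC hcode
    have h5 := H_mono h0 hpp hp'
    have h6 : 0 ≤ (n - Ds (mix p C) / (2 * (1 - 2 * p) ^ 2) / C.card) * (H p' - H p) :=
      mul_nonneg (by linarith) (by linarith)
    linarith
  linarith

/-! ### the threshold -/

lemma th_bdd (δ : ℝ) : BddAbove {p : ℝ | 0 < p ∧ p < 1 / 2 ∧
    Tendsto (fun n => worst δ p n) atTop (𝓝 0)} := ⟨1 / 2, fun _ hp => hp.2.1.le⟩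

lemma th_nonneg (δ : ℝ) : 0 ≤ th δ := Real.sSup_nonneg fun _ hp => hp.1.le

lemma th_le_half (δ : ℝ) : th δ ≤ 1 / 2 := Real.sSup_le (fun _ hp => hp.2.1.le) (by norm_num)

lemma tendsto_exp {c : ℝ} (hc : 0 < c) : Tendsto (fun n : ℕ => Real.exp (-(c * n))) atTop (𝓝 0) := by
  apply Real.tendsto_exp_neg_atTop_nhds_zero.comp
  exact (tendsto_natCast_atTop_atTop (R := ℝ)).const_mul_atTop hc

/-- **The dichotomy for each length.** -/
lemma worst_dich {p1 p2 δ : ℝ} (h0 : 0 < p1) (h12 : p1 < p2) (h2 : p2 < 1 / 2) (hδ : 0 < δ) :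
    ∃ c : ℝ, 0 < c ∧ ∀ n : ℕ, worst δ p1 n ≤ 2 * Real.exp (-(c * n)) ∨
      1 - Real.exp (-(c * n)) ≤ worst δ p2 n := by
  obtain ⟨c, hc, h⟩ := dich_code h0 h12 h2 hδ
  refine ⟨c / 2, by positivity, fun n => ?_⟩
  obtain ⟨C, hC, hcode, hw⟩ := exists_worst δ p1 n
  by_cases hE : 2 * Real.exp (-(c * n)) < optErr p1 C
  · right
    obtain ⟨C', hsub, hne, hm⟩ := h n C hC hcode hE
    exact (optErr_ge (h0.trans h12) (by linarith) hne hm).trans
      (le_worst (h0.trans h12) (by linarith) hne (code_sub hcode hsub))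
  · left
    rw [← hw]
    push Not at hE
    refine hE.trans ?_
    have hn : (0 : ℝ) ≤ n := Nat.cast_nonneg n
    have : Real.exp (-(c * n)) ≤ Real.exp (-(c / 2 * n)) := by
      apply Real.exp_le_exp.2
      nlinarith
    linarith

/-- below the threshold -/
lemma below {δ p : ℝ} (hδ : 0 < δ) (h0 : 0 < p) (hp : p < th δ) :
    ∃ c : ℝ, 0 < c ∧ ∀ᶠ n : ℕ in atTop, worst δ p n ≤ Real.exp (-(c * n)) := by
  have hne : {p : ℝ | 0 < p ∧ p < 1 / 2 ∧
      Tendsto (fun n => worst δ p n) atTop (𝓝 0)}.Nonempty := by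
    by_contra hcon
    rw [Set.not_nonempty_iff_eq_empty] at hcon
    unfold th at hp
    rw [hcon, Real.sSup_empty] at hp
    linarith
  obtain ⟨p2, ⟨h20, h21, h22⟩, hpp⟩ := exists_lt_of_lt_csSup hne hp
  obtain ⟨c, hc, h⟩ := worst_dich h0 hpp h21 hδ
  refine ⟨c / 2, by positivity, ?_⟩
  have e1 : ∀ᶠ n : ℕ in atTop, worst δ p2 n < 1 / 2 :=
    h22.eventually (gt_mem_nhds (by norm_num))
  have e2 : ∀ᶠ n : ℕ in atTop, Real.exp (-(c / 2 * n)) < 1 / 2 :=
    (tendsto_exp (by positivity : 0 < c / 2)).eventually (gt_mem_nhds (by norm_num))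
  filter_upwards [e1, e2] with n h3 h4
  have e3 : Real.exp (-(c * n)) = Real.exp (-(c / 2 * n)) * Real.exp (-(c / 2 * n)) := by
    rw [← Real.exp_add]
    congr 1
    ring
  have h5 := Real.exp_pos (-(c / 2 * n))
  rcases h n with h6 | h6
  · rw [e3] at h6
    nlinarith
  · rw [e3] at h6
    nlinarith

/-- above the threshold there are codes all of whose words are confused -/
lemma confused {δ p : ℝ} (hδ : 0 < δ) (hp : th δ < p) (hp2 : p < 1 / 2) :
    ∃ c : ℝ, 0 < c ∧ ∃ᶠ n : ℕ in atTop, ∃ C : Finset (Fin n → Bool), C.Nonempty ∧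
      IsCode ⌈δ * n⌉₊ C ∧ ∀ x ∈ C, 1 - Real.exp (-(c * n)) ≤ miss p C x := by
  have ht := th_nonneg δ
  obtain ⟨p0, hp0, hp01⟩ := exists_between hp
  have h0 : 0 < p0 := by linarith
  obtain ⟨c, hc, h⟩ := dich_code h0 hp01 hp2 hδ
  refine ⟨c, hc, ?_⟩
  by_contra hcon
  rw [not_frequently] at hcon
  have h3 : ∀ᶠ n : ℕ in atTop, worst δ p0 n ≤ 2 * Real.exp (-(c * n)) := by
    filter_upwards [hcon] with n hn
    obtain ⟨C, hC, hcode, hw⟩ := exists_worst δ p0 n
    by_contra hlt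
    push Not at hlt
    rw [← hw] at hlt
    obtain ⟨C', hsub, hne, hm⟩ := h n C hC hcode hlt
    exact hn ⟨C', hne, code_sub hcode hsub, hm⟩
  have h4 : Tendsto (fun n => worst δ p0 n) atTop (𝓝 0) := by
    have h5 : Tendsto (fun n : ℕ => 2 * Real.exp (-(c * n))) atTop (𝓝 0) := by
      simpa using (tendsto_exp hc).const_mul 2
    exact squeeze_zero' (Eventually.of_forall fun n => worst_nonneg h0 (by linarith) n) h3 h5
  have h6 : p0 ≤ th δ := le_csSup (th_bdd δ) ⟨h0, by linarith, h4⟩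
  linarith

/-- above the threshold -/
lemma above {δ p : ℝ} (hδ : 0 < δ) (hp : th δ < p) (hp2 : p < 1 / 2) :
    ∃ c : ℝ, 0 < c ∧ ∃ᶠ n : ℕ in atTop, 1 - Real.exp (-(c * n)) ≤ worst δ p n := by
  obtain ⟨c, hc, h⟩ := confused hδ hp hp2
  have ht := th_nonneg δ
  refine ⟨c / 2, by positivity, h.mono ?_⟩
  rintro n ⟨C, hC, hcode, hm⟩
  exact (optErr_ge (by linarith) (by linarith) hC hm).trans
    (le_worst (by linarith) (by linarith) hC hcode)

/-! ### below the threshold the equivocation is small -/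

section fixed

variable {n : ℕ}

lemma pe_log1 {p : ℝ} (h0 : 0 < p) (h1 : p < 1) {C : Finset (Fin n → Bool)}
    {x : Fin n → Bool} (hx : x ∈ C) :
    pe p C x = ex p x (fun y => Real.log (1 + Lam p C x y)) / Real.log 2 := by
  unfold pe ex
  rw [Finset.sum_div]
  apply Finset.sum_congr rfl
  intro y _
  beta_reduce
  rw [mix_eq h0 h1 hx]
  have hk := kern_pos h0 h1 x y
  unfold Real.logb
  rw [mul_div_cancel_left₀ _ hk.ne', mul_div_assoc]

lemma pe_le {p : ℝ} (h0 : 0 < p) (h1 : p < 1) {C : Finset (Fin n → Bool)} (hC : C.Nonempty)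
    (x : Fin n → Bool) : pe p C x ≤ n := by
  have hlog : 0 < Real.log 2 := Real.log_pos (by norm_num)
  have hc : (0 : ℝ) < C.card := by exact_mod_cast hC.card_pos
  refine le_trans ?_ (log_card_le C)
  have h3 : ∀ y : Fin n → Bool, kern p x y * Real.logb 2 (mix p C y / kern p x y) ≤
      kern p x y * Real.logb 2 C.card + (mix p C y / C.card - kern p x y) / Real.log 2 := by
    intro y
    have p1 := mix_pos h0 h1 hC y
    have p2 := kern_pos h0 h1 x y
    have h4 := Real.log_le_sub_one_of_pos (x := mix p C y / kern p x y / C.card)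
      (div_pos (div_pos p1 p2) hc)
    rw [Real.log_div (div_pos p1 p2).ne' hc.ne'] at h4
    have h5 := mul_le_mul_of_nonneg_left h4 p2.le
    have e : kern p x y * (mix p C y / kern p x y / C.card - 1) =
        mix p C y / C.card - kern p x y := by
      field_simp
    rw [e] at h5
    unfold Real.logb
    rw [← sub_nonneg]
    have : kern p x y * (Real.log C.card / Real.log 2) +
        (mix p C y / C.card - kern p x y) / Real.log 2 -
        kern p x y * (Real.log (mix p C y / kern p x y) / Real.log 2) =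
        ((mix p C y / C.card - kern p x y) -
        kern p x y * (Real.log (mix p C y / kern p x y) - Real.log C.card)) / Real.log 2 := by
      field_simp
      ring
    rw [this]
    apply div_nonneg _ hlog.le
    linarith
  unfold pe ex
  refine (Finset.sum_le_sum fun y _ => h3 y).trans ?_
  rw [Finset.sum_add_distrib, ← Finset.sum_mul, sum_kern, one_mul, ← Finset.sum_div,
    Finset.sum_sub_distrib, ← Finset.sum_div, sum_mix, sum_kern, div_self hc.ne']
  simp

/-- the constant -/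
noncomputable def Kc (p : ℝ) : ℝ := (Real.log 2 + bt p ^ 2 / 2) / Real.log 2

lemma Kc_nonneg (p : ℝ) : 0 ≤ Kc p := by
  have hlog : 0 < Real.log 2 := Real.log_pos (by norm_num)
  unfold Kc
  positivity

lemma pe_good {p : ℝ} (h0 : 0 < p) (h1 : p < 1 / 2) {C : Finset (Fin n → Bool)}
    {x : Fin n → Bool} (hx : x ∈ C) (hn : 1 ≤ n) (hm : miss p C x ≤ 1 / 2) :
    pe p C x ≤ √n * Kc p := by
  have hlog : 0 < Real.log 2 := Real.log_pos (by norm_num)
  have h := log1_le h0 h1 hx hn (τ := 1 / 2) (by norm_num) (by linarith)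
  rw [pe_log1 h0 (by linarith) hx, div_le_iff₀ hlog]
  refine h.trans (le_of_eq ?_)
  unfold Kc
  rw [one_div, Real.log_inv]
  field_simp

/-- the equivocation is small if the error probability is small -/
lemma eqv_small {p : ℝ} (h0 : 0 < p) (h1 : p < 1 / 2) (hn : 1 ≤ n)
    {C : Finset (Fin n → Bool)} (hC : C.Nonempty) :
    eqv p C ≤ 4 * optErr p C * n + √n * Kc p := by
  classical
  have hc : (0 : ℝ) < C.card := by exact_mod_cast hC.card_pos
  have hn0 : (0 : ℝ) ≤ n := Nat.cast_nonneg n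
  have hK : 0 ≤ √(n : ℝ) * Kc p := mul_nonneg (Real.sqrt_nonneg _) (Kc_nonneg p)
  unfold eqv
  rw [div_le_iff₀ hc]
  have h2 : ∀ x ∈ C, pe p C x ≤ 2 * miss p C x * n + √n * Kc p := by
    intro x hx
    have hm0 := miss_nonneg h0 (by linarith : p < 1) hx
    rcases le_or_gt (miss p C x) (1 / 2) with h | h
    · have := pe_good h0 h1 hx hn h
      have : 0 ≤ 2 * miss p C x * n := by positivity
      linarith
    · have h3 := pe_le h0 (by linarith : p < 1) hC x
      nlinarith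
  refine (Finset.sum_le_sum h2).trans ?_
  rw [Finset.sum_add_distrib, ← Finset.sum_mul, ← Finset.mul_sum, Finset.sum_const,
    nsmul_eq_mul]
  have h4 := optErr_sq h0 (by linarith : p < 1) hC
  have h5 : psi p C / C.card ≤ 2 * optErr p C := by nlinarith [sq_nonneg (optErr p C)]
  rw [div_le_iff₀ hc] at h5
  have e : ∑ x ∈ C, miss p C x = psi p C := rfl
  rw [e]
  nlinarith

end fixed

lemma sqrt_small {K ε : ℝ} (hε : 0 < ε) : ∀ᶠ n : ℕ in atTop, √n * K ≤ ε * n := by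
  have h : Tendsto (fun n : ℕ => K / √(n : ℝ)) atTop (𝓝 0) :=
    (Real.tendsto_sqrt_atTop.comp (tendsto_natCast_atTop_atTop (R := ℝ))).const_div_atTop K
  filter_upwards [h.eventually (gt_mem_nhds hε), eventually_ge_atTop 1] with n hn hn1
  have hn0 : (0 : ℝ) < n := by exact_mod_cast hn1
  have hs : 0 < √(n : ℝ) := Real.sqrt_pos.2 hn0
  rw [div_lt_iff₀ hs] at hn
  have h2 := Real.mul_self_sqrt hn0.le
  nlinarith

/-- below the threshold the rate of the equivocation is zero -/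
lemma Er_zero {δ p : ℝ} (hδ : 0 < δ) (h0 : 0 < p) (hp : p < th δ) : Er δ p = 0 := by
  have hp1 : p < 1 / 2 := hp.trans_le (th_le_half δ)
  apply le_antisymm _ (Er_nonneg h0 (by linarith))
  apply le_of_forall_pos_le_add
  intro ε hε
  rw [zero_add]
  apply Er_le h0 (by linarith)
  obtain ⟨c, hc, h⟩ := below hδ h0 hp
  have h2 : ∀ᶠ n : ℕ in atTop, Real.exp (-(c * n)) < ε / 8 :=
    (tendsto_exp hc).eventually (gt_mem_nhds (by linarith))
  filter_upwards [h, h2, sqrt_small (K := Kc p) (by linarith : 0 < ε / 2),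
    eventually_ge_atTop 1] with n a1 a2 a3 hn
  have hn0 : (0 : ℝ) < n := by exact_mod_cast hn
  obtain ⟨C, hC, hcode, hE⟩ := exists_mE δ p n
  rw [← hE]
  have h3 := eqv_small h0 hp1 hn hC
  have h4 := le_worst (p := p) (δ := δ) h0 (by linarith) hC hcode
  nlinarith

/-- at the threshold -/
lemma Er_th {δ : ℝ} (hδ : 0 < δ) (h0 : 0 < th δ) : Er δ (th δ) = 0 := by
  apply le_antisymm _ (Er_nonneg h0 (by have := th_le_half δ; linarith))
  have hle := th_le_half δ
  have h2 : ∀ᶠ p in 𝓝[<] (th δ), Er δ (th δ) ≤ H (th δ) - H p := by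
    have h3 : ∀ᶠ p in 𝓝[<] (th δ), p ∈ Set.Ioo 0 (th δ) := Ioo_mem_nhdsLT h0
    filter_upwards [h3] with p hp
    have h4 := Er_up (δ := δ) hp.1 (by linarith [hp.2]) hp.2.le hle
    rw [Er_zero hδ hp.1 hp.2] at h4
    linarith
  have h5 : Tendsto (fun p => H (th δ) - H p) (𝓝[<] (th δ)) (𝓝 (H (th δ) - H (th δ))) := by
    apply Tendsto.mono_left _ nhdsWithin_le_nhds
    exact (continuous_const.sub
      Pool.Agent.Results.MP_0430e4_lc.ConstantWeightCriterion.H_cont).tendsto _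
  rw [sub_self] at h5
  exact ge_of_tendsto h5 h2

end Pool.Agent.Helper84.Thresh
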