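import Pool.Agent.Helper84.Thresh.Slope
import Pool.Graph.R_pool_sql_team_seeded_2aa45f1a.Results.MP_0430e4_lc.EndsOfTheRange

/-!
The threshold and the rate of the best codes.
-/

set_option autoImplicit false

namespace Pool.Agent.Helper84.Thresh

open Finset Filter Topology
open Pool.Agent.Results.MP_0430e4_lc.ConstantWeightCriterion (IsCode H A R H_eq' H_cont)

lemma H_ends (x : ℝ) : Pool.Agent.Results.MP_0430e4_lc.EndsOfTheRange.H x = H x := by
  rw [H_eq', Pool.Agent.Results.MP_0430e4_lc.EndsOfTheRange.H_eq]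

lemma A_ends (n d : ℕ) : Pool.Agent.Results.MP_0430e4_lc.EndsOfTheRange.A n d = A n d := rfl

lemma R_le_kappa {δ k : ℝ} (h0 : 0 < δ)
    (hk : Tendsto (fun n : ℕ => Real.logb 2
      (Pool.Agent.Results.MP_0430e4_lc.EndsOfTheRange.LP n ⌈δ * n⌉₊) / n) atTop (𝓝 k)) :
    R δ ≤ k := by
  apply le_of_forall_gt_imp_ge_of_dense
  intro b hb
  have h2 := (tendsto_order.1 hk).2 b hb
  apply limsup_le_of_le
    (Pool.Agent.Results.MP_0430e4_lc.ConstantWeightCriterion.bdd_ge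
      (Pool.Agent.Results.MP_0430e4_lc.ConstantWeightCriterion.rateA δ)).isCoboundedUnder_flip
  filter_upwards [h2, eventually_ge_atTop 1] with n a1 hn
  have hn0 : (0 : ℝ) < n := by exact_mod_cast hn
  refine le_trans ?_ a1.le
  apply div_le_div_of_nonneg_right _ hn0.le
  have hd1 : 1 ≤ ⌈δ * n⌉₊ := Nat.one_le_iff_ne_zero.2 (Nat.ceil_pos.2 (by positivity)).ne'
  apply Real.logb_le_logb_of_le (by norm_num)
  · exact_mod_cast Pool.Agent.Results.MP_0430e4_lc.ConstantWeightCriterion.A_pos _ _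
  · have g1 := Pool.Agent.Results.MP_0430e4_lc.EndsOfTheRange.A_le_KP (k := 2) (n := n)
      (d := ⌈δ * n⌉₊) (by norm_num)
    have g2 := Pool.Agent.Results.MP_0430e4_lc.EndsOfTheRange.KP_le_LP (k := 2) (n := n)
      (d := ⌈δ * n⌉₊) le_rfl hd1
    rw [A_ends] at g1
    linarith

/-- strictly below the bound of Elias and Bassalygo -/
lemma R_lt {δ : ℝ} (h0 : 0 < δ) (h1 : δ < 1 / 2) : R δ < 1 - H (Jr δ) := by
  obtain ⟨κ, k1, k2, -⟩ := Pool.Agent.Results.MP_0430e4_lc.EndsOfTheRange.result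
  have h2 := R_le_kappa h0 (k1 δ h0 h1).1
  have h3 := (k2 (Jr δ) δ (Jr_pos h0) (Jr_lt h1) (Jr_eq h1).symm).1
  rw [H_ends] at h3
  exact h2.trans_lt h3

/-- the rate near `1 / 2` -/
lemma R_near {ε : ℝ} (h0 : 0 < ε) (h1 : ε < 1 / 2) :
    R (1 / 2 - ε) ≤ H (ε ^ 2) / (1 - 2 * ε ^ 2) := by
  obtain ⟨κ, k1, -, -, -, -, k6, -⟩ := Pool.Agent.Results.MP_0430e4_lc.EndsOfTheRange.result
  have h2 := R_le_kappa (by linarith) (k1 (1 / 2 - ε) (by linarith) (by linarith)).1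
  have h3 := (k6 ε h0 h1).2
  rw [H_ends] at h3
  exact h2.trans h3

/-- the two bounds for the rate of the best codes -/
lemma R_two {δ : ℝ} (h0 : 0 < δ) (h1 : δ < 1 / 2) :
    lam δ (th δ) * (1 - H (th δ)) ≤ R δ ∧ R δ ≤ 1 - H (th δ) := by
  have ht := th_pos h0 h1
  have ht2 := th_lt_half h0 h1
  have h2 := slope h0 h1 le_rfl ht2.le le_rfl
  have h3 := Er_up (δ := δ) ht ht2 ht2.le le_rfl
  rw [Er_th h0 ht, Er_half, H_half] at h2 h3
  exact ⟨by linarith, by linarith⟩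

lemma lam_Jr {δ : ℝ} (h0 : 0 < δ) (h1 : δ < 1 / 2) : lam δ (Jr δ) = 1 := by
  have e := Jr_eq h1
  have e2 : (1 - 2 * Jr δ) ^ 2 = 1 - 2 * δ := by
    linear_combination (-2) * e
  unfold lam
  rw [e2, e, div_eq_one_iff_eq (by nlinarith)]
  linear_combination (2 * δ) * e

/-- the threshold is larger than the radius of Johnson -/
lemma Jr_lt_th {δ : ℝ} (h0 : 0 < δ) (h1 : δ < 1 / 2) : Jr δ < th δ := by
  rcases (Jr_le_th h0 h1).eq_or_lt with h | h
  · have h2 := (R_two h0 h1).1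
    have h3 := R_lt h0 h1
    rw [← h, lam_Jr h0 h1] at h2
    linarith
  · exact h

lemma Er_self (δ : ℝ) : Er δ δ = Pool.Agent.Helper89K9.GV.E δ := rfl

lemma phi_bound {δ : ℝ} (h0 : 0 < δ) (h1 : δ < 1 / 2) :
    lam δ (th δ) * (H δ - H (th δ)) ≤
      Pool.Agent.Helper89K9.GV.phi δ (R δ - (1 - H δ)) := by
  have ht := th_pos h0 h1
  have h2 := slope h0 h1 le_rfl (th_le h0 h1) h1.le
  have h3 := (Pool.Agent.Helper89K9.GV.two_sided h0 h1).1.2
  rw [Er_th h0 ht, Er_self] at h2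
  linarith

lemma th_eq_iff {δ : ℝ} (h0 : 0 < δ) (h1 : δ < 1 / 2) : th δ = δ ↔ R δ = 1 - H δ := by
  have ht := th_pos h0 h1
  constructor
  · intro h
    have h2 := (R_two h0 h1).2
    rw [h] at h2
    exact le_antisymm h2 (gv h0 h1)
  · intro h
    have h2 := phi_bound h0 h1
    rw [h, sub_self, Pool.Agent.Helper89K9.GV.phi_zero] at h2
    rcases (th_le h0 h1).eq_or_lt with h3 | h3
    · exact h3
    · exfalso
      have h4 := H_lt ht.le h3 h1.le
      have h5 := lam_pos h0 ht (th_lt_half h0 h1).le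
        (J_cond h0 h1 le_rfl (th_lt_half h0 h1).le)
      have := mul_pos h5 (by linarith : 0 < H δ - H (th δ))
      linarith

/-- the lower bound of the slope near distance `1 / 2` -/
lemma lam_ge {δ p : ℝ} (h0 : 0 < δ) (hJ : δ ≤ 2 * p * (1 - p)) :
    1 - (1 / 2 - δ) / (2 * δ ^ 2) ≤ lam δ p := by
  have hden := lam_den h0 hJ
  have h1 : 1 - lam δ p = (2 * p * (1 - p) - δ) / (2 * p * (1 - p) - δ * (1 - 2 * p) ^ 2) := by
    unfold lam
    rw [eq_div_iff hden.ne', sub_mul, div_mul_cancel₀ _ hden.ne']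
    ring
  have h2 : 2 * δ ^ 2 ≤ 2 * p * (1 - p) - δ * (1 - 2 * p) ^ 2 := by
    have : (1 - 2 * p) ^ 2 = 1 - 2 * (2 * p * (1 - p)) := by ring
    rw [this]
    nlinarith
  have h3 : 2 * p * (1 - p) ≤ 1 / 2 := by nlinarith [sq_nonneg (1 - 2 * p)]
  have h4 : (2 * p * (1 - p) - δ) / (2 * p * (1 - p) - δ * (1 - 2 * p) ^ 2) ≤
      (1 / 2 - δ) / (2 * δ ^ 2) := by
    apply div_le_div₀ (by linarith) (by linarith) (by positivity) h2
  linarith

/-- **The rate near distance `1 / 2`.** -/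
lemma ratio_tendsto : Tendsto (fun δ => R δ / (1 - H (th δ))) (𝓝[<] (1 / 2)) (𝓝 1) := by
  have hlow : Tendsto (fun δ : ℝ => 1 - (1 / 2 - δ) / (2 * δ ^ 2)) (𝓝[<] (1 / 2)) (𝓝 1) := by
    have : ContinuousAt (fun δ : ℝ => 1 - (1 / 2 - δ) / (2 * δ ^ 2)) (1 / 2) := by
      apply ContinuousAt.sub continuousAt_const
      exact ContinuousAt.div (by fun_prop) (by fun_prop) (by norm_num)
    have h := this.tendsto
    norm_num at h
    exact (h.mono_left nhdsWithin_le_nhds)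
  have hev : ∀ᶠ δ : ℝ in 𝓝[<] (1 / 2), δ ∈ Set.Ioo (0 : ℝ) (1 / 2) :=
    Ioo_mem_nhdsLT (by norm_num)
  refine tendsto_of_tendsto_of_tendsto_of_le_of_le' hlow tendsto_const_nhds ?_ ?_
  · filter_upwards [hev] with δ hδ
    have ht := th_pos hδ.1 hδ.2
    have ht2 := th_lt_half hδ.1 hδ.2
    have h2 := (R_two hδ.1 hδ.2).1
    have h3 := lam_ge hδ.1 (J_cond hδ.1 hδ.2 le_rfl ht2.le)
    have h4 := H_lt ht.le ht2 le_rfl
    rw [H_half] at h4
    rw [le_div_iff₀ (by linarith)]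
    have := mul_le_mul_of_nonneg_right h3 (by linarith : 0 ≤ 1 - H (th δ))
    linarith
  · filter_upwards [hev] with δ hδ
    have ht := th_pos hδ.1 hδ.2
    have ht2 := th_lt_half hδ.1 hδ.2
    have h2 := (R_two hδ.1 hδ.2).2
    have h4 := H_lt ht.le ht2 le_rfl
    rw [H_half] at h4
    rw [div_le_one (by linarith)]
    exact h2

/-! ### the threshold near distance `1 / 2` -/

lemma one_sub_H_ge {p : ℝ} (h0 : 0 < p) (h1 : p < 1) :
    (1 - 2 * p) ^ 2 / (2 * Real.log 2) ≤ 1 - H p := by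
  have hlog : 0 < Real.log 2 := Real.log_pos (by norm_num)
  have habs : |1 - 2 * p| < 1 := by
    rw [abs_lt]
    constructor <;> linarith
  have h2 := le_hasSum (Gf_series habs) 0 (by
    intro k _
    have e : (1 - 2 * p) ^ (2 * k + 2) = ((1 - 2 * p) ^ (k + 1)) ^ 2 := by
      rw [← pow_mul]
      congr 1
      ring
    rw [e]
    positivity)
  rw [Gf_binEntropy h0 h1, ← H_log p] at h2
  norm_num at h2
  rw [div_le_iff₀ (by positivity)]
  nlinarith

lemma H_small {x : ℝ} (h1 : x < 1) :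
    H x ≤ x * (Real.log (1 / x) + 1) / Real.log 2 := by
  have hlog : 0 < Real.log 2 := Real.log_pos (by norm_num)
  rw [le_div_iff₀ hlog, H_log]
  unfold Real.binEntropy
  rw [one_div]
  have h2 : 0 < 1 - x := by linarith
  have h3 := Real.log_le_sub_one_of_pos (inv_pos.2 h2)
  have h4 := mul_le_mul_of_nonneg_left h3 h2.le
  have e : (1 - x) * ((1 - x)⁻¹ - 1) = x := by
    field_simp
    ring
  rw [e] at h4
  linarith

/-- the correction factor -/
noncomputable def gq (ε : ℝ) : ℝ :=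
  (1 + (1 / 2) * (Real.log (1 / ε))⁻¹) / ((1 - 2 * ε ^ 2) * (1 - ε / (2 * (1 / 2 - ε) ^ 2)))

lemma gq_tendsto : Tendsto gq (𝓝[>] 0) (𝓝 1) := by
  have h1 : Tendsto (fun ε : ℝ => (Real.log (1 / ε))⁻¹) (𝓝[>] 0) (𝓝 0) := by
    apply tendsto_inv_atTop_zero.comp
    have h : Tendsto (fun ε : ℝ => -Real.log ε) (𝓝[>] 0) atTop :=
      tendsto_neg_atBot_atTop.comp Real.tendsto_log_nhdsGT_zero
    refine h.congr fun ε => ?_
    rw [one_div, Real.log_inv]
  have h2 : Tendsto (fun ε : ℝ => (1 - 2 * ε ^ 2) * (1 - ε / (2 * (1 / 2 - ε) ^ 2)))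
      (𝓝[>] 0) (𝓝 1) := by
    have : ContinuousAt (fun ε : ℝ => (1 - 2 * ε ^ 2) * (1 - ε / (2 * (1 / 2 - ε) ^ 2))) 0 := by
      apply ContinuousAt.mul (by fun_prop)
      apply ContinuousAt.sub continuousAt_const
      exact ContinuousAt.div (by fun_prop) (by fun_prop) (by norm_num)
    have h := this.tendsto
    norm_num at h
    exact h.mono_left nhdsWithin_le_nhds
  have h3 := ((h1.const_mul (1 / 2)).const_add 1).div h2 one_ne_zero
  norm_num at h3
  refine h3.congr fun ε => ?_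
  unfold gq
  norm_num

/-- **The threshold near distance `1 / 2`.** -/
lemma th_near {η : ℝ} (hη : 0 < η) : ∀ᶠ ε : ℝ in 𝓝[>] 0,
    1 / 2 - th (1 / 2 - ε) ≤ (1 + η) * (ε * √(Real.log (1 / ε))) := by
  have hlog : 0 < Real.log 2 := Real.log_pos (by norm_num)
  have hg : ∀ᶠ ε : ℝ in 𝓝[>] 0, gq ε < (1 + η) ^ 2 :=
    gq_tendsto.eventually (gt_mem_nhds (by nlinarith))
  filter_upwards [hg, Ioo_mem_nhdsGT (by norm_num : (0 : ℝ) < 1 / 8)] with ε a1 hε
  obtain ⟨hε0, hε1⟩ := hε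
  have hδ0 : 0 < 1 / 2 - ε := by linarith
  have hδ1 : 1 / 2 - ε < 1 / 2 := by linarith
  set θ : ℝ := th (1 / 2 - ε) with hθ
  have ht : 0 < θ := th_pos hδ0 hδ1
  have ht2 : θ < 1 / 2 := th_lt_half hδ0 hδ1
  have b1 := one_sub_H_ge ht (by linarith)
  have b2 := (R_two hδ0 hδ1).1
  rw [← hθ] at b2
  have b3 := R_near hε0 (by linarith)
  have b4 := lam_ge hδ0 (J_cond hδ0 hδ1 le_rfl ht2.le)
  rw [← hθ] at b4
  have e1 : 1 / 2 - (1 / 2 - ε) = ε := by ring
  rw [e1] at b4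
  have b5 := H_small (x := ε ^ 2) (by nlinarith)
  have hL : 0 < Real.log (1 / ε) := by
    apply Real.log_pos
    rw [one_lt_div hε0]
    linarith
  have e2 : Real.log (1 / ε ^ 2) = 2 * Real.log (1 / ε) := by
    rw [one_div, one_div, ← inv_pow, Real.log_pow]
    norm_num
  rw [e2] at b5
  have d1 : 0 < 1 - 2 * ε ^ 2 := by nlinarith
  have d2 : 0 < 1 - ε / (2 * (1 / 2 - ε) ^ 2) := by
    have : ε / (2 * (1 / 2 - ε) ^ 2) < 1 := by
      rw [div_lt_one (by positivity)]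
      nlinarith
    linarith
  have b6 : (1 - ε / (2 * (1 / 2 - ε) ^ 2)) * ((1 - 2 * θ) ^ 2 / (2 * Real.log 2)) ≤
      (ε ^ 2 * (2 * Real.log (1 / ε) + 1) / Real.log 2) / (1 - 2 * ε ^ 2) := by
    calc (1 - ε / (2 * (1 / 2 - ε) ^ 2)) * ((1 - 2 * θ) ^ 2 / (2 * Real.log 2))
        ≤ (1 - ε / (2 * (1 / 2 - ε) ^ 2)) * (1 - H θ) := mul_le_mul_of_nonneg_left b1 d2.le
      _ ≤ lam (1 / 2 - ε) θ * (1 - H θ) := by
          apply mul_le_mul_of_nonneg_right b4
          exact le_trans (by positivity) b1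
      _ ≤ R (1 / 2 - ε) := b2
      _ ≤ H (ε ^ 2) / (1 - 2 * ε ^ 2) := b3
      _ ≤ _ := div_le_div_of_nonneg_right b5 d1.le
  have b7 : (1 / 2 - θ) ^ 2 ≤ ε ^ 2 * Real.log (1 / ε) * gq ε := by
    obtain ⟨d, hd⟩ : ∃ d, d = 1 - ε / (2 * (1 / 2 - ε) ^ 2) := ⟨_, rfl⟩
    rw [← hd] at d2 b6
    have e3 : ε ^ 2 * Real.log (1 / ε) * gq ε =
        (ε ^ 2 * (2 * Real.log (1 / ε) + 1) / Real.log 2) / (1 - 2 * ε ^ 2) *
          (Real.log 2 / (2 * d)) := by
      unfold gq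
      rw [← hd]
      field_simp
    rw [e3]
    have b8 := mul_le_mul_of_nonneg_right b6
      (by positivity : 0 ≤ Real.log 2 / (2 * d))
    refine le_trans (le_of_eq ?_) b8
    field_simp
  have b9 : (1 / 2 - θ) ^ 2 ≤ ((1 + η) * (ε * √(Real.log (1 / ε)))) ^ 2 := by
    refine b7.trans ?_
    have e4 : ((1 + η) * (ε * √(Real.log (1 / ε)))) ^ 2 =
        ε ^ 2 * Real.log (1 / ε) * (1 + η) ^ 2 := by
      rw [mul_pow, mul_pow, Real.sq_sqrt hL.le]
      ring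
    rw [e4]
    exact mul_le_mul_of_nonneg_left a1.le (by positivity)
  exact le_of_sq_le_sq b9 (by positivity)

end Pool.Agent.Helper84.Thresh
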