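import Pool.Graph.R_pool_sql_team_seeded_1e53cb71.Helper89K9.GV.Final

/-!
Decoding errors of a code over the binary symmetric channel.
-/

set_option autoImplicit false

namespace Pool.Agent.Helper84.Thresh

open Finset Filter
open Pool.Agent.Helper89K9.GV

variable {n : ℕ}

/-- the logarithm of the ratio of the two transition probabilities -/
noncomputable def bt (p : ℝ) : ℝ := Real.log ((1 - p) / p)

lemma bt_pos {p : ℝ} (h0 : 0 < p) (h1 : p < 1 / 2) : 0 < bt p := by
  unfold bt
  apply Real.log_pos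
  rw [lt_div_iff₀ h0]
  linarith

lemma exp_bt {p : ℝ} (h0 : 0 < p) (h1 : p < 1) : Real.exp (-(bt p)) = p / (1 - p) := by
  unfold bt
  have h : 0 < (1 - p) / p := div_pos (by linarith) h0
  rw [← Real.log_inv, Real.exp_log (inv_pos.2 h), inv_div]

lemma hd_le (x y : Fin n → Bool) : hammingDist x y ≤ n := by
  have := hammingDist_le_card_fintype (x := x) (y := y)
  simpa using this

lemma kern_exp {p : ℝ} (h0 : 0 < p) (h1 : p < 1) (x y : Fin n → Bool) :
    kern p x y = (1 - p) ^ n * Real.exp (-(bt p * hammingDist x y)) := by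
  rw [kern_eq]
  have h : -(bt p * hammingDist x y) = (hammingDist x y : ℝ) * (-(bt p)) := by ring
  rw [h, Real.exp_nat_mul, exp_bt h0 h1, div_pow]
  have h2 : (1 - p) ^ n = (1 - p) ^ (n - hammingDist x y) * (1 - p) ^ hammingDist x y := by
    rw [← pow_add, Nat.sub_add_cancel (hd_le x y)]
  rw [h2]
  have h3 : (1 - p) ^ hammingDist x y ≠ 0 := pow_ne_zero _ (by linarith)
  field_simp

/-- the difference of the distances of `y` to `c` and to `x` -/
noncomputable def dd (x c y : Fin n → Bool) : ℝ := (hammingDist c y : ℝ) - hammingDist x y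

/-- the likelihood ratio of all other words of the code and of `x` -/
noncomputable def Lam (p : ℝ) (C : Finset (Fin n → Bool)) (x y : Fin n → Bool) : ℝ :=
  ∑ c ∈ C.erase x, Real.exp (-(bt p * dd x c y))

lemma kern_ratio {p : ℝ} (h0 : 0 < p) (h1 : p < 1) (x c y : Fin n → Bool) :
    kern p c y = kern p x y * Real.exp (-(bt p * dd x c y)) := by
  rw [kern_exp h0 h1, kern_exp h0 h1 x, mul_assoc, ← Real.exp_add]
  congr 2
  unfold dd
  ring

lemma mix_eq {p : ℝ} (h0 : 0 < p) (h1 : p < 1) {C : Finset (Fin n → Bool)} {x : Fin n → Bool}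
    (hx : x ∈ C) (y : Fin n → Bool) : mix p C y = kern p x y * (1 + Lam p C x y) := by
  unfold mix Lam
  rw [← Finset.add_sum_erase C _ hx, mul_add, mul_one, Finset.mul_sum]
  congr 1
  exact Finset.sum_congr rfl fun c _ => kern_ratio h0 h1 x c y

lemma Lam_nonneg (p : ℝ) (C : Finset (Fin n → Bool)) (x y : Fin n → Bool) : 0 ≤ Lam p C x y :=
  Finset.sum_nonneg fun _ _ => (Real.exp_pos _).le

lemma Lam_pos (p : ℝ) {C : Finset (Fin n → Bool)} {x : Fin n → Bool} (h : (C.erase x).Nonempty)
    (y : Fin n → Bool) : 0 < Lam p C x y :=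
  Finset.sum_pos (fun _ _ => Real.exp_pos _) h

/-- the probability that a word drawn from the posterior distribution is not the sent word `x` -/
noncomputable def miss (p : ℝ) (C : Finset (Fin n → Bool)) (x : Fin n → Bool) : ℝ :=
  ex p x fun y => 1 - kern p x y / mix p C y

lemma miss_eq {p : ℝ} (h0 : 0 < p) (h1 : p < 1) {C : Finset (Fin n → Bool)} {x : Fin n → Bool}
    (hx : x ∈ C) : miss p C x = ex p x fun y => Lam p C x y / (1 + Lam p C x y) := by
  unfold miss ex
  apply Finset.sum_congr rfl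
  intro y _
  beta_reduce
  rw [mix_eq h0 h1 hx]
  have hk := kern_pos h0 h1 x y
  have hl := Lam_nonneg p C x y
  congr 1
  have : 1 + Lam p C x y ≠ 0 := by linarith
  field_simp
  ring

lemma ex_add (p : ℝ) (x : Fin n → Bool) (f g : (Fin n → Bool) → ℝ) :
    ex p x (fun y => f y + g y) = ex p x f + ex p x g := by
  unfold ex
  rw [← Finset.sum_add_distrib]
  exact Finset.sum_congr rfl fun y _ => by ring

lemma ex_sub (p : ℝ) (x : Fin n → Bool) (f g : (Fin n → Bool) → ℝ) :
    ex p x (fun y => f y - g y) = ex p x f - ex p x g := by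
  unfold ex
  rw [← Finset.sum_sub_distrib]
  exact Finset.sum_congr rfl fun y _ => by ring

lemma ex_const (p : ℝ) (x : Fin n → Bool) (c : ℝ) : ex p x (fun _ => c) = c := by
  unfold ex
  rw [← Finset.sum_mul, sum_kern, one_mul]

lemma ex_mul (p : ℝ) (x : Fin n → Bool) (c : ℝ) (f : (Fin n → Bool) → ℝ) :
    ex p x (fun y => c * f y) = c * ex p x f := by
  unfold ex
  rw [Finset.mul_sum]
  exact Finset.sum_congr rfl fun y _ => by ring

lemma ex_mono {p : ℝ} (h0 : 0 ≤ p) (h1 : p ≤ 1) (x : Fin n → Bool) {f g : (Fin n → Bool) → ℝ}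
    (h : ∀ y, f y ≤ g y) : ex p x f ≤ ex p x g :=
  Finset.sum_le_sum fun y _ => mul_le_mul_of_nonneg_left (h y) (kern_nonneg h0 h1 _ _)

lemma ex_neg (p : ℝ) (x : Fin n → Bool) (f : (Fin n → Bool) → ℝ) :
    ex p x (fun y => -f y) = -ex p x f := by
  unfold ex
  rw [← Finset.sum_neg_distrib]
  exact Finset.sum_congr rfl fun y _ => by ring

/-- the sum of `1 - post` -/
noncomputable def psi (p : ℝ) (C : Finset (Fin n → Bool)) : ℝ := ∑ x ∈ C, miss p C x

/-- the sum of the squares -/
noncomputable def sqs (p : ℝ) (C : Finset (Fin n → Bool)) (y : Fin n → Bool) : ℝ :=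
  ∑ x ∈ C, kern p x y ^ 2

lemma psi_eq (p : ℝ) (C : Finset (Fin n → Bool)) :
    psi p C = ∑ y, (mix p C y - sqs p C y / mix p C y) := by
  unfold psi miss ex
  rw [Finset.sum_comm]
  apply Finset.sum_congr rfl
  intro y _
  have h : sqs p C y / mix p C y = ∑ x ∈ C, kern p x y ^ 2 / mix p C y := by
    unfold sqs
    rw [Finset.sum_div]
  have h2 : mix p C y - ∑ x ∈ C, kern p x y ^ 2 / mix p C y =
      ∑ x ∈ C, (kern p x y - kern p x y ^ 2 / mix p C y) := by
    rw [Finset.sum_sub_distrib]
    rfl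
  rw [h, h2]
  exact Finset.sum_congr rfl fun x _ => by ring

lemma psi_empty (p : ℝ) : psi p (∅ : Finset (Fin n → Bool)) = 0 := by
  unfold psi
  simp

lemma miss_nonneg {p : ℝ} (h0 : 0 < p) (h1 : p < 1) {C : Finset (Fin n → Bool)}
    {x : Fin n → Bool} (hx : x ∈ C) : 0 ≤ miss p C x := by
  rw [miss_eq h0 h1 hx]
  apply Finset.sum_nonneg
  intro y _
  apply mul_nonneg (kern_nonneg h0.le h1.le _ _)
  have := Lam_nonneg p C x y
  positivity

lemma miss_le_one {p : ℝ} (h0 : 0 < p) (h1 : p < 1) {C : Finset (Fin n → Bool)}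
    {x : Fin n → Bool} (hx : x ∈ C) : miss p C x ≤ 1 := by
  rw [miss_eq h0 h1 hx]
  refine (ex_mono h0.le h1.le x (g := fun _ => 1) fun y => ?_).trans (ex_const p x 1).le
  have := Lam_nonneg p C x y
  rw [div_le_one (by linarith)]
  linarith

/-- removing a word -/
lemma psi_erase {p : ℝ} (h0 : 0 < p) (h1 : p < 1) {C : Finset (Fin n → Bool)}
    {x : Fin n → Bool} (hx : x ∈ C) :
    psi p C - 2 * miss p C x ≤ psi p (C.erase x) := by
  classical
  rw [psi_eq, psi_eq]
  have hm : 2 * miss p C x = ∑ y, 2 * (kern p x y * (1 - kern p x y / mix p C y)) := by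
    unfold miss ex
    rw [Finset.mul_sum]
  rw [hm, ← Finset.sum_sub_distrib]
  apply Finset.sum_le_sum
  intro y _
  have e1 : mix p C y = kern p x y + mix p (C.erase x) y := by
    unfold mix
    rw [Finset.add_sum_erase C (fun x => kern p x y) hx]
  have e2 : sqs p C y = kern p x y ^ 2 + sqs p (C.erase x) y := by
    unfold sqs
    rw [Finset.add_sum_erase C (fun x => kern p x y ^ 2) hx]
  have hk := kern_pos h0 h1 x y
  have hs0 : 0 ≤ mix p (C.erase x) y :=
    Finset.sum_nonneg fun z _ => kern_nonneg h0.le h1.le z y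
  have hq0 : 0 ≤ sqs p (C.erase x) y := Finset.sum_nonneg fun z _ => sq_nonneg _
  have hq1 : sqs p (C.erase x) y ≤ mix p (C.erase x) y ^ 2 := by
    unfold sqs mix
    rw [pow_two (∑ z ∈ C.erase x, kern p z y), Finset.sum_mul]
    apply Finset.sum_le_sum
    intro z hz
    rw [pow_two]
    apply mul_le_mul_of_nonneg_left _ (kern_nonneg h0.le h1.le z y)
    exact Finset.single_le_sum (f := fun z => kern p z y)
      (fun w _ => kern_nonneg h0.le h1.le w y) hz
  rw [e1, e2]
  generalize kern p x y = w at *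
  generalize mix p (C.erase x) y = s at *
  generalize sqs p (C.erase x) y = q at *
  rcases hs0.eq_or_lt with hs | hs
  · subst hs
    have hq : q = 0 := by nlinarith
    subst hq
    have : w ≠ 0 := hk.ne'
    field_simp
    ring_nf
    rfl
  · have hws : 0 < w + s := by linarith
    rw [← sub_nonneg]
    have e : s - q / s - (w + s - (w ^ 2 + q) / (w + s) - 2 * (w * (1 - w / (w + s)))) =
        w * (s ^ 2 - q) / (s * (w + s)) := by
      field_simp
      ring
    rw [e]
    apply div_nonneg _ (by positivity)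
    exact mul_nonneg hk.le (by linarith)

/-- **Peeling.** -/
lemma peel {p : ℝ} (h0 : 0 < p) (h1 : p < 1) (τ : ℝ) : ∀ (k : ℕ) (C : Finset (Fin n → Bool)),
    C.card = k → 2 * τ * C.card < psi p C →
      ∃ C' ⊆ C, C'.Nonempty ∧ ∀ x ∈ C', τ < miss p C' x := by
  classical
  intro k
  induction k with
  | zero =>
    intro C hC h
    rw [Finset.card_eq_zero] at hC
    subst hC
    rw [psi_empty] at h
    simp at h
  | succ k ih =>
    intro C hC h
    by_cases hall : ∀ x ∈ C, τ < miss p C x
    · refine ⟨C, Finset.Subset.refl _, ?_, hall⟩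
      rw [← Finset.card_pos]
      omega
    · push Not at hall
      obtain ⟨x, hx, hxm⟩ := hall
      have hcard : (C.erase x).card = k := by
        rw [Finset.card_erase_of_mem hx]
        omega
      have h2 := psi_erase h0 h1 hx
      obtain ⟨C', hC', hne, hm⟩ := ih (C.erase x) hcard (by
        rw [hcard]
        rw [hC] at h
        push_cast at h
        linarith)
      exact ⟨C', hC'.trans (Finset.erase_subset _ _), hne, hm⟩

/-- the error probability of a decoder `D` -/
noncomputable def err (p : ℝ) (C : Finset (Fin n → Bool))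
    (D : (Fin n → Bool) → (Fin n → Bool)) : ℝ :=
  (∑ x ∈ C, ∑ y, if D y ≠ x then kern p x y else 0) / C.card

/-- the least error probability -/
noncomputable def optErr (p : ℝ) (C : Finset (Fin n → Bool)) : ℝ :=
  ⨅ D : (Fin n → Bool) → (Fin n → Bool), err p C D

lemma err_eq (p : ℝ) {C : Finset (Fin n → Bool)} (hC : C.Nonempty)
    (D : (Fin n → Bool) → (Fin n → Bool)) :
    err p C D = 1 - (∑ y, if D y ∈ C then kern p (D y) y else 0) / C.card := by
  classical
  have hc : (0 : ℝ) < C.card := by exact_mod_cast hC.card_pos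
  have e : ∑ x ∈ C, ∑ y, (if D y ≠ x then kern p x y else 0) =
      C.card - ∑ y, if D y ∈ C then kern p (D y) y else 0 := by
    have e1 : ∀ x ∈ C, ∑ y, (if D y ≠ x then kern p x y else 0) =
        1 - ∑ y, if D y = x then kern p x y else 0 := by
      intro x _
      rw [← sum_kern p x, ← Finset.sum_sub_distrib]
      apply Finset.sum_congr rfl
      intro y _
      by_cases h : D y = x <;> simp [h]
    rw [Finset.sum_congr rfl e1, Finset.sum_sub_distrib]
    congr 1
    · simp
    · rw [Finset.sum_comm]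
      apply Finset.sum_congr rfl
      intro y _
      rw [Finset.sum_ite_eq C (D y) (fun x => kern p x y)]
  unfold err
  rw [e, sub_div, div_self hc.ne']

lemma err_nonneg {p : ℝ} (h0 : 0 ≤ p) (h1 : p ≤ 1) (C : Finset (Fin n → Bool))
    (D : (Fin n → Bool) → (Fin n → Bool)) : 0 ≤ err p C D := by
  unfold err
  apply div_nonneg _ (Nat.cast_nonneg _)
  apply Finset.sum_nonneg
  intro x _
  apply Finset.sum_nonneg
  intro y _
  split_ifs
  · exact kern_nonneg h0 h1 _ _
  · exact le_rfl

lemma err_le_one {p : ℝ} (h0 : 0 ≤ p) (h1 : p ≤ 1) {C : Finset (Fin n → Bool)}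
    (hC : C.Nonempty) (D : (Fin n → Bool) → (Fin n → Bool)) : err p C D ≤ 1 := by
  rw [err_eq p hC]
  have : 0 ≤ (∑ y, if D y ∈ C then kern p (D y) y else 0) / (C.card : ℝ) := by
    apply div_nonneg _ (Nat.cast_nonneg _)
    apply Finset.sum_nonneg
    intro y _
    split_ifs
    · exact kern_nonneg h0 h1 _ _
    · exact le_rfl
  linarith

lemma optErr_le {p : ℝ} (h0 : 0 ≤ p) (h1 : p ≤ 1) (C : Finset (Fin n → Bool))
    (D : (Fin n → Bool) → (Fin n → Bool)) : optErr p C ≤ err p C D :=
  ciInf_le ⟨0, by rintro _ ⟨D, rfl⟩; exact err_nonneg h0 h1 C D⟩ D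

lemma optErr_nonneg {p : ℝ} (h0 : 0 ≤ p) (h1 : p ≤ 1) (C : Finset (Fin n → Bool)) :
    0 ≤ optErr p C := le_ciInf fun D => err_nonneg h0 h1 C D

lemma optErr_le_one {p : ℝ} (h0 : 0 ≤ p) (h1 : p ≤ 1) {C : Finset (Fin n → Bool)}
    (hC : C.Nonempty) : optErr p C ≤ 1 :=
  (optErr_le h0 h1 C id).trans (err_le_one h0 h1 hC id)

/-- the probability that a word drawn from the posterior distribution is the sent word -/
lemma post_eq {p : ℝ} (C : Finset (Fin n → Bool)) :
    ∑ y, sqs p C y / mix p C y = C.card - psi p C := by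
  rw [psi_eq, Finset.sum_sub_distrib, sum_mix]
  ring

lemma optErr_le_psi {p : ℝ} (h0 : 0 < p) (h1 : p < 1) {C : Finset (Fin n → Bool)}
    (hC : C.Nonempty) : optErr p C ≤ psi p C / C.card := by
  classical
  have hc : (0 : ℝ) < C.card := by exact_mod_cast hC.card_pos
  have hD : ∀ y : Fin n → Bool, ∃ x ∈ C, ∀ z ∈ C, kern p z y ≤ kern p x y := fun y =>
    C.exists_max_image (fun x => kern p x y) hC
  choose D hDC hDmax using hD
  refine (optErr_le h0.le h1.le C D).trans ?_
  rw [err_eq p hC, sub_le_iff_le_add, ← add_div, one_le_div hc]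
  have h2 : ∑ y, sqs p C y / mix p C y ≤ ∑ y, if D y ∈ C then kern p (D y) y else 0 := by
    apply Finset.sum_le_sum
    intro y _
    rw [if_pos (hDC y), div_le_iff₀ (mix_pos h0 h1 hC y)]
    unfold sqs mix
    rw [Finset.mul_sum]
    apply Finset.sum_le_sum
    intro z hz
    rw [pow_two]
    exact mul_le_mul_of_nonneg_right (hDmax y z hz) (kern_nonneg h0.le h1.le z y)
  rw [post_eq] at h2
  linarith

lemma err_ge {p : ℝ} (h0 : 0 < p) (h1 : p < 1) {C : Finset (Fin n → Bool)}
    (hC : C.Nonempty) (D : (Fin n → Bool) → (Fin n → Bool)) :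
    (1 - err p C D) ^ 2 ≤ 1 - psi p C / C.card := by
  classical
  have hc : (0 : ℝ) < C.card := by exact_mod_cast hC.card_pos
  have h2 : (∑ y, if D y ∈ C then kern p (D y) y else 0) ^ 2 ≤
      (∑ y, mix p C y) * ∑ y, sqs p C y / mix p C y := by
    apply Finset.sum_sq_le_sum_mul_sum_of_sq_le_mul
    · intro y _
      exact (mix_pos h0 h1 hC y).le
    · intro y _
      exact div_nonneg (Finset.sum_nonneg fun z _ => sq_nonneg _) (mix_pos h0 h1 hC y).le
    · intro y _
      rw [mul_div_cancel₀ _ (mix_pos h0 h1 hC y).ne']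
      split_ifs with h
      · exact Finset.single_le_sum (f := fun x => kern p x y ^ 2) (fun z _ => sq_nonneg _) h
      · rw [zero_pow (by norm_num)]
        exact Finset.sum_nonneg fun z _ => sq_nonneg _
  rw [sum_mix, post_eq] at h2
  rw [err_eq p hC, sub_sub_cancel, div_pow, div_le_iff₀ (by positivity)]
  calc (∑ y, if D y ∈ C then kern p (D y) y else 0) ^ 2 ≤ C.card * (C.card - psi p C) := h2
    _ = _ := by field_simp

lemma exists_opt (p : ℝ) (C : Finset (Fin n → Bool)) :
    ∃ D : (Fin n → Bool) → (Fin n → Bool), err p C D = optErr p C :=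
  exists_eq_ciInf_of_finite

lemma optErr_sq {p : ℝ} (h0 : 0 < p) (h1 : p < 1) {C : Finset (Fin n → Bool)}
    (hC : C.Nonempty) : (1 - optErr p C) ^ 2 ≤ 1 - psi p C / C.card := by
  obtain ⟨D, hD⟩ := exists_opt p C
  rw [← hD]
  exact err_ge h0 h1 hC D

end Pool.Agent.Helper84.Thresh
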