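import Pool.Agent.Helper84.Thresh.KI

/-!
Concentration and the dichotomy for two noise levels.
-/

set_option autoImplicit false

namespace Pool.Agent.Helper84.Thresh

open Finset Filter
open Pool.Agent.Helper89K9.GV
open Pool.Agent.Results.MP_0430e4_lc.ConstantWeightCriterion (IsCode)

variable {n : ℕ}

lemma hd_update (y : Fin n → Bool) (i : Fin n) (b : Bool) :
    hammingDist (Function.update y i b) y ≤ 1 := by
  classical
  unfold hammingDist
  refine (Finset.card_le_card (t := {i}) ?_).trans (by simp)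
  intro j hj
  rw [Finset.mem_filter] at hj
  rw [Finset.mem_singleton]
  by_contra hne
  exact hj.2 (Function.update_of_ne hne _ _)

lemma hd_update_le (c y : Fin n → Bool) (i : Fin n) (b : Bool) :
    (hammingDist c (Function.update y i b) : ℝ) ≤ hammingDist c y + 1 := by
  have h := hammingDist_triangle c y (Function.update y i b)
  have h2 := hd_update y i b
  rw [hammingDist_comm] at h2
  have h3 : hammingDist c (Function.update y i b) ≤ hammingDist c y + 1 := by omega
  exact_mod_cast h3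

lemma hd_update_ge (c y : Fin n → Bool) (i : Fin n) (b : Bool) :
    (hammingDist c y : ℝ) ≤ hammingDist c (Function.update y i b) + 1 := by
  have h := hammingDist_triangle c (Function.update y i b) y
  have h2 := hd_update y i b
  have h3 : hammingDist c y ≤ hammingDist c (Function.update y i b) + 1 := by omega
  exact_mod_cast h3

lemma Lam_update {p : ℝ} (hb : 0 ≤ bt p) (C : Finset (Fin n → Bool)) (x y : Fin n → Bool)
    (i : Fin n) (b : Bool) :
    Lam p C x (Function.update y i b) ≤ Real.exp (2 * bt p) * Lam p C x y := by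
  unfold Lam
  rw [Finset.mul_sum]
  apply Finset.sum_le_sum
  intro c _
  rw [← Real.exp_add]
  apply Real.exp_le_exp.2
  unfold dd
  have h1 := hd_update_ge c y i b
  have h2 := hd_update_le x y i b
  nlinarith

lemma Lam_update' {p : ℝ} (hb : 0 ≤ bt p) (C : Finset (Fin n → Bool)) (x y : Fin n → Bool)
    (i : Fin n) (b : Bool) :
    Lam p C x y ≤ Real.exp (2 * bt p) * Lam p C x (Function.update y i b) := by
  have h := Lam_update hb C x (Function.update y i b) i (y i)
  rwa [Function.update_idem, Function.update_eq_self] at h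

lemma lip_log {p : ℝ} (hb : 0 ≤ bt p) {C : Finset (Fin n → Bool)} {x : Fin n → Bool}
    (hne : (C.erase x).Nonempty) : Lip (2 * bt p) (fun y => Real.log (Lam p C x y)) := by
  intro y i b
  have p1 := Lam_pos p hne y
  have p2 := Lam_pos p hne (Function.update y i b)
  have h1 := Real.log_le_log p2 (Lam_update hb C x y i b)
  have h2 := Real.log_le_log p1 (Lam_update' hb C x y i b)
  rw [Real.log_mul (Real.exp_pos _).ne' p1.ne', Real.log_exp] at h1
  rw [Real.log_mul (Real.exp_pos _).ne' p2.ne', Real.log_exp] at h2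
  rw [abs_le]
  constructor <;> linarith

lemma Lip.min0 {L : ℝ} {f : (Fin n → Bool) → ℝ} (h : Lip L f) : Lip L (fun y => min 0 (f y)) := by
  intro y i b
  refine le_trans ?_ (h y i b)
  have := abs_min_sub_min_le_max (0 : ℝ) (f (Function.update y i b)) 0 (f y)
  simpa using this

lemma lip_log1 {p : ℝ} (hb : 0 ≤ bt p) (C : Finset (Fin n → Bool)) (x : Fin n → Bool) :
    Lip (2 * bt p) (fun y => Real.log (1 + Lam p C x y)) := by
  intro y i b
  have p1 := Lam_nonneg p C x y
  have p2 := Lam_nonneg p C x (Function.update y i b)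
  have he : 1 ≤ Real.exp (2 * bt p) := Real.one_le_exp (by linarith)
  have g1 : 1 + Lam p C x (Function.update y i b) ≤ Real.exp (2 * bt p) * (1 + Lam p C x y) := by
    have := Lam_update hb C x y i b
    linarith
  have g2 : 1 + Lam p C x y ≤ Real.exp (2 * bt p) * (1 + Lam p C x (Function.update y i b)) := by
    have := Lam_update' hb C x y i b
    linarith
  have h1 := Real.log_le_log (by linarith) g1
  have h2 := Real.log_le_log (by linarith) g2
  rw [Real.log_mul (Real.exp_pos _).ne' (by linarith), Real.log_exp] at h1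
  rw [Real.log_mul (Real.exp_pos _).ne' (by linarith), Real.log_exp] at h2
  rw [abs_le]
  constructor <;> linarith

lemma miss_le_exp {p : ℝ} (h0 : 0 < p) (h1 : p < 1 / 2) {C : Finset (Fin n → Bool)}
    {x : Fin n → Bool} (hx : x ∈ C) (hne : (C.erase x).Nonempty) {θ : ℝ} (ht1 : θ ≤ 1) :
    miss p C x ≤ Real.exp (θ * ex p x (fun y => min 0 (Real.log (Lam p C x y))) +
      θ ^ 2 * bt p ^ 2 / 2 * n) := by
  have hb := (bt_pos h0 h1).le
  have h := mgf_lip h0.le (by linarith) θ n _ (Lip.min0 (lip_log hb hne)) x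
  rw [miss_eq h0 (by linarith) hx]
  refine (ex_mono h0.le (by linarith) x fun y => ?_).trans (h.trans (le_of_eq ?_))
  · have hl := Lam_pos p hne y
    have h2 : min 0 (Real.log (Lam p C x y)) ≤ θ * min 0 (Real.log (Lam p C x y)) := by
      have : min 0 (Real.log (Lam p C x y)) ≤ 0 := min_le_left _ _
      nlinarith
    refine le_trans ?_ (Real.exp_le_exp.2 h2)
    rcases le_total 0 (Real.log (Lam p C x y)) with h3 | h3
    · rw [min_eq_left h3, Real.exp_zero, div_le_one (by linarith)]
      linarith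
    · rw [min_eq_right h3, Real.exp_log hl]
      apply div_le_self hl.le
      linarith
  · congr 1
    ring

lemma hit_le_exp {p : ℝ} (h0 : 0 < p) (h1 : p < 1 / 2) {C : Finset (Fin n → Bool)}
    {x : Fin n → Bool} (hx : x ∈ C) (hne : (C.erase x).Nonempty) {θ : ℝ} (ht0 : 0 ≤ θ)
    (ht1 : θ ≤ 1) :
    1 - miss p C x ≤ Real.exp (-(θ * ex p x (fun y => Real.log (Lam p C x y))) +
      θ ^ 2 * bt p ^ 2 / 2 * n) := by
  have hb := (bt_pos h0 h1).le
  have h := mgf_lip h0.le (by linarith) (-θ) n _ (lip_log hb hne) x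
  rw [miss_eq h0 (by linarith) hx]
  have e : 1 - ex p x (fun y => Lam p C x y / (1 + Lam p C x y)) =
      ex p x (fun y => 1 - Lam p C x y / (1 + Lam p C x y)) := by
    rw [ex_sub, ex_const]
  rw [e]
  refine (ex_mono h0.le (by linarith) x fun y => ?_).trans (h.trans (le_of_eq ?_))
  · have hl := Lam_pos p hne y
    have e2 : 1 - Lam p C x y / (1 + Lam p C x y) = 1 / (1 + Lam p C x y) := by
      field_simp
      ring
    rw [e2]
    rcases le_total 0 (Real.log (Lam p C x y)) with h3 | h3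
    · have h4 : -Real.log (Lam p C x y) ≤ -θ * Real.log (Lam p C x y) := by nlinarith
      refine le_trans ?_ (Real.exp_le_exp.2 h4)
      rw [Real.exp_neg, Real.exp_log hl, ← one_div]
      apply one_div_le_one_div_of_le hl
      linarith
    · have h4 : 0 ≤ -θ * Real.log (Lam p C x y) := by nlinarith
      refine le_trans ?_ (Real.one_le_exp h4)
      rw [div_le_one (by linarith)]
      linarith
  · congr 1
    ring

lemma miss_single {p : ℝ} (h0 : 0 < p) (h1 : p < 1) {C : Finset (Fin n → Bool)}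
    {x : Fin n → Bool} (hx : x ∈ C) (hne : ¬ (C.erase x).Nonempty) : miss p C x = 0 := by
  rw [miss_eq h0 h1 hx]
  rw [Finset.not_nonempty_iff_eq_empty] at hne
  unfold ex Lam
  rw [hne]
  simp

/-- **The dichotomy.** -/
lemma dich {p1 p2 δ : ℝ} (h0 : 0 < p1) (h12 : p1 < p2) (h2 : p2 < 1 / 2) (hδ : 0 < δ) :
    ∃ c : ℝ, 0 < c ∧ ∀ (n : ℕ) (C : Finset (Fin n → Bool)), ∀ x ∈ C,
      (∀ z ∈ C.erase x, δ * n ≤ hammingDist x z) →
        miss p1 C x ≤ Real.exp (-(c * n)) ∨ 1 - Real.exp (-(c * n)) ≤ miss p2 C x := by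
  have hb1 := bt_pos h0 (h12.trans h2)
  have hb2 := bt_pos (h0.trans h12) h2
  set q : ℝ := (p2 - p1) / (1 - p1) with hqdef
  have hq : p2 = p1 + (1 - p1) * q := by
    rw [hqdef, mul_div_cancel₀]
    · ring
    · linarith
  have hq0 : 0 < q := div_pos (by linarith) (by linarith)
  set a : ℝ := bt p2 * q * δ / 2 with ha
  have ha0 : 0 < a := by positivity
  set t1 : ℝ := min 1 (a / bt p1 ^ 2) with ht1
  set t2 : ℝ := min 1 (a / bt p2 ^ 2) with ht2
  have ht1p : 0 < t1 := lt_min one_pos (by positivity)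
  have ht2p : 0 < t2 := lt_min one_pos (by positivity)
  have ht1b : t1 * bt p1 ^ 2 ≤ a := by
    have : t1 ≤ a / bt p1 ^ 2 := min_le_right _ _
    rwa [le_div_iff₀ (by positivity)] at this
  have ht2b : t2 * bt p2 ^ 2 ≤ a := by
    have : t2 ≤ a / bt p2 ^ 2 := min_le_right _ _
    rwa [le_div_iff₀ (by positivity)] at this
  refine ⟨min t1 t2 * (a / 2), by positivity, ?_⟩
  intro n C x hx hdist
  by_cases hne : (C.erase x).Nonempty
  · have hn : (0 : ℝ) ≤ n := Nat.cast_nonneg n
    have hkey := key h0 h12 h2 hq hne hdist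
    rcases le_or_gt (ex p1 x (fun y => min 0 (Real.log (Lam p1 C x y)))) (-(a * n)) with h | h
    · left
      refine (miss_le_exp (θ := t1) h0 (h12.trans h2) hx hne (min_le_left _ _)).trans ?_
      apply Real.exp_le_exp.2
      have g1 := mul_le_mul_of_nonneg_left h ht1p.le
      have g2 : t1 ^ 2 * bt p1 ^ 2 / 2 * n ≤ t1 * (a / 2) * n := by
        apply mul_le_mul_of_nonneg_right _ hn
        have := mul_le_mul_of_nonneg_left ht1b ht1p.le
        linarith
      have g3 : min t1 t2 * (a / 2) * n ≤ t1 * (a / 2) * n := by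
        apply mul_le_mul_of_nonneg_right _ hn
        exact mul_le_mul_of_nonneg_right (min_le_left _ _) (by positivity)
      linarith
    · right
      have hE : a * n ≤ ex p2 x (fun y => Real.log (Lam p2 C x y)) := by
        have e : bt p2 * q * (δ * n) = 2 * (a * n) := by rw [ha]; ring
        rw [e] at hkey
        linarith
      have h3 := hit_le_exp (h0.trans h12) h2 hx hne ht2p.le (min_le_left _ _)
      have h4 : -(t2 * ex p2 x (fun y => Real.log (Lam p2 C x y))) +
          t2 ^ 2 * bt p2 ^ 2 / 2 * n ≤ -(min t1 t2 * (a / 2) * n) := by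
        have g1 := mul_le_mul_of_nonneg_left hE ht2p.le
        have g2 : t2 ^ 2 * bt p2 ^ 2 / 2 * n ≤ t2 * (a / 2) * n := by
          apply mul_le_mul_of_nonneg_right _ hn
          have := mul_le_mul_of_nonneg_left ht2b ht2p.le
          linarith
        have g3 : min t1 t2 * (a / 2) * n ≤ t2 * (a / 2) * n := by
          apply mul_le_mul_of_nonneg_right _ hn
          exact mul_le_mul_of_nonneg_right (min_le_right _ _) (by positivity)
        linarith
      have h5 := h3.trans (Real.exp_le_exp.2 h4)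
      linarith
  · left
    rw [miss_single h0 (by linarith) hx hne]
    exact (Real.exp_pos _).le

lemma dist_of_code {δ : ℝ} {C : Finset (Fin n → Bool)} (hC : IsCode ⌈δ * n⌉₊ C)
    {x : Fin n → Bool} (hx : x ∈ C) : ∀ z ∈ C.erase x, δ * n ≤ hammingDist x z := by
  intro z hz
  rw [Finset.mem_erase] at hz
  have h := hC x hx z hz.2 hz.1.symm
  exact (Nat.le_ceil _).trans (by exact_mod_cast h)

lemma code_sub {d : ℕ} {C C' : Finset (Fin n → Bool)} (hC : IsCode d C) (h : C' ⊆ C) :
    IsCode d C' := fun x hx y hy hxy => hC x (h hx) y (h hy) hxy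

/-- **The dichotomy for codes.** -/
lemma dich_code {p1 p2 δ : ℝ} (h0 : 0 < p1) (h12 : p1 < p2) (h2 : p2 < 1 / 2) (hδ : 0 < δ) :
    ∃ c : ℝ, 0 < c ∧ ∀ (n : ℕ) (C : Finset (Fin n → Bool)), C.Nonempty →
      IsCode ⌈δ * n⌉₊ C → 2 * Real.exp (-(c * n)) < optErr p1 C →
        ∃ C' ⊆ C, C'.Nonempty ∧ ∀ x ∈ C', 1 - Real.exp (-(c * n)) ≤ miss p2 C' x := by
  obtain ⟨c, hc, h⟩ := dich h0 h12 h2 hδ
  refine ⟨c, hc, fun n C hC hcode hE => ?_⟩
  have hcard : (0 : ℝ) < C.card := by exact_mod_cast hC.card_pos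
  have h3 := optErr_le_psi h0 (by linarith) hC
  have h4 : 2 * Real.exp (-(c * n)) * C.card < psi p1 C := by
    have := hE.trans_le h3
    rwa [lt_div_iff₀ hcard] at this
  obtain ⟨C', hsub, hne, hm⟩ := peel h0 (by linarith) _ _ C rfl h4
  refine ⟨C', hsub, hne, fun x hx => ?_⟩
  rcases h n C' x hx (dist_of_code (code_sub hcode hsub) hx) with h5 | h5
  · exact absurd (hm x hx) (not_lt.2 h5)
  · exact h5

lemma psi_ge {p τ : ℝ} {C : Finset (Fin n → Bool)} (hm : ∀ x ∈ C, τ ≤ miss p C x) :
    τ * C.card ≤ psi p C := by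
  unfold psi
  rw [mul_comm, ← nsmul_eq_mul, ← Finset.sum_const]
  exact Finset.sum_le_sum hm

/-- codes whose words are all confused have a large error probability -/
lemma optErr_ge {p : ℝ} (h0 : 0 < p) (h1 : p < 1) {C : Finset (Fin n → Bool)} (hC : C.Nonempty)
    {c : ℝ} (hm : ∀ x ∈ C, 1 - Real.exp (-(c * n)) ≤ miss p C x) :
    1 - Real.exp (-(c / 2 * n)) ≤ optErr p C := by
  have hcard : (0 : ℝ) < C.card := by exact_mod_cast hC.card_pos
  have h2 := psi_ge hm
  have h3 := optErr_sq h0 h1 hC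
  have h4 : 1 - Real.exp (-(c * n)) ≤ psi p C / C.card := by
    rwa [le_div_iff₀ hcard]
  have h5 : (1 - optErr p C) ^ 2 ≤ Real.exp (-(c / 2 * n)) ^ 2 := by
    rw [← Real.exp_nat_mul]
    have e : ((2 : ℕ) : ℝ) * -(c / 2 * n) = -(c * n) := by
      push_cast
      ring
    rw [e]
    linarith
  have h6 := abs_le.1 (abs_le_of_sq_le_sq h5 (Real.exp_pos _).le)
  linarith [h6.2]

/-- an upper bound for the expectation of `log (1 + Λ)` -/
lemma log1_le {p : ℝ} (h0 : 0 < p) (h1 : p < 1 / 2) {C : Finset (Fin n → Bool)}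
    {x : Fin n → Bool} (hx : x ∈ C) (hn : 1 ≤ n) {τ : ℝ} (hτ : 0 < τ)
    (hm : τ ≤ 1 - miss p C x) :
    ex p x (fun y => Real.log (1 + Lam p C x y)) ≤
      √n * (-Real.log τ + bt p ^ 2 / 2) := by
  have hb := (bt_pos h0 h1).le
  have hn0 : (1 : ℝ) ≤ n := by exact_mod_cast hn
  have hs : 1 ≤ √(n : ℝ) := by
    rw [Real.one_le_sqrt]
    exact hn0
  set θ : ℝ := 1 / √(n : ℝ) with hθ
  have hs0 : 0 < √(n : ℝ) := by linarith
  have hθ0 : 0 < θ := by positivity
  have hθ1 : θ ≤ 1 := by
    rw [hθ, div_le_one hs0]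
    exact hs
  have h := mgf_lip h0.le (by linarith) (-θ) n _ (lip_log1 hb C x) x
  have h3 : 1 - miss p C x ≤ ex p x (fun y => Real.exp (-θ * Real.log (1 + Lam p C x y))) := by
    rw [miss_eq h0 (by linarith) hx]
    have e : 1 - ex p x (fun y => Lam p C x y / (1 + Lam p C x y)) =
        ex p x (fun y => 1 - Lam p C x y / (1 + Lam p C x y)) := by
      rw [ex_sub, ex_const]
    rw [e]
    apply ex_mono h0.le (by linarith)
    intro y
    have hl := Lam_nonneg p C x y
    have e2 : 1 - Lam p C x y / (1 + Lam p C x y) = Real.exp (-Real.log (1 + Lam p C x y)) := by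
      rw [Real.exp_neg, Real.exp_log (by linarith)]
      have : 1 + Lam p C x y ≠ 0 := by linarith
      field_simp
      ring
    rw [e2]
    apply Real.exp_le_exp.2
    have : 0 ≤ Real.log (1 + Lam p C x y) := Real.log_nonneg (by linarith)
    nlinarith
  have h4 := hm.trans (h3.trans h)
  have h5 := Real.log_le_log hτ h4
  rw [Real.log_exp] at h5
  set E : ℝ := ex p x (fun y => Real.log (1 + Lam p C x y)) with hE
  have e3 : (-θ) ^ 2 * (2 * bt p) ^ 2 / 8 * n = bt p ^ 2 / 2 := by
    have : θ ^ 2 * n = 1 := by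
      rw [hθ, div_pow, one_pow, Real.sq_sqrt (by linarith)]
      field_simp
    calc (-θ) ^ 2 * (2 * bt p) ^ 2 / 8 * n = (θ ^ 2 * n) * (bt p ^ 2 / 2) := by ring
      _ = _ := by rw [this, one_mul]
  rw [e3] at h5
  have h6 : θ * E ≤ -Real.log τ + bt p ^ 2 / 2 := by linarith
  have h7 := mul_le_mul_of_nonneg_left h6 hs0.le
  have e4 : √(n : ℝ) * (θ * E) = E := by
    rw [hθ]
    field_simp
  linarith

/-- a lower bound for the expectation of `min 0 (log Λ)` -/
lemma min_ge {p : ℝ} (h0 : 0 < p) (h1 : p < 1 / 2) {C : Finset (Fin n → Bool)}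
    {x : Fin n → Bool} (hx : x ∈ C) (hne : (C.erase x).Nonempty) (hn : 1 ≤ n) {τ : ℝ}
    (hτ : 0 < τ) (hm : τ ≤ miss p C x) :
    -(√n * (-Real.log τ + bt p ^ 2 / 2)) ≤
      ex p x (fun y => min 0 (Real.log (Lam p C x y))) := by
  have hn0 : (1 : ℝ) ≤ n := by exact_mod_cast hn
  have hs : 1 ≤ √(n : ℝ) := by
    rw [Real.one_le_sqrt]
    exact hn0
  set θ : ℝ := 1 / √(n : ℝ) with hθ
  have hs0 : 0 < √(n : ℝ) := by linarith
  have hθ0 : 0 < θ := by positivity
  have hθ1 : θ ≤ 1 := by
    rw [hθ, div_le_one hs0]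
    exact hs
  have h := hm.trans (miss_le_exp h0 h1 hx hne hθ1)
  have h5 := Real.log_le_log hτ h
  rw [Real.log_exp] at h5
  set E : ℝ := ex p x (fun y => min 0 (Real.log (Lam p C x y))) with hE
  have e3 : θ ^ 2 * bt p ^ 2 / 2 * n = bt p ^ 2 / 2 := by
    have : θ ^ 2 * n = 1 := by
      rw [hθ, div_pow, one_pow, Real.sq_sqrt (by linarith)]
      field_simp
    calc θ ^ 2 * bt p ^ 2 / 2 * n = (θ ^ 2 * n) * (bt p ^ 2 / 2) := by ring
      _ = _ := by rw [this, one_mul]
  rw [e3] at h5
  have h6 : -(-Real.log τ + bt p ^ 2 / 2) ≤ θ * E := by linarith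
  have h7 := mul_le_mul_of_nonneg_left h6 hs0.le
  have e4 : √(n : ℝ) * (θ * E) = E := by
    rw [hθ]
    field_simp
  linarith

lemma nonempty_of_miss {p : ℝ} (h0 : 0 < p) (h1 : p < 1) {C : Finset (Fin n → Bool)}
    {x : Fin n → Bool} (hx : x ∈ C) (hm : 0 < miss p C x) : (C.erase x).Nonempty := by
  by_contra hcon
  rw [miss_single h0 h1 hx hcon] at hm
  exact lt_irrefl _ hm

end Pool.Agent.Helper84.Thresh
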