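import Mathlib

/-!
The two-point inequality for the entropy.
-/

set_option autoImplicit false

namespace Pool.Agent.Helper84.Thresh

/-- `ln 2` minus the entropy of a bit with bias `t` -/
noncomputable def Gf (t : ℝ) : ℝ :=
  (1 + t) / 2 * Real.log (1 + t) + (1 - t) / 2 * Real.log (1 - t)

lemma Gf_series {t : ℝ} (ht : |t| < 1) :
    HasSum (fun k : ℕ => t ^ (2 * k + 2) / ((2 * k + 1) * (2 * k + 2))) (Gf t) := by
  have ht2 : |t ^ 2| < 1 := by
    rw [abs_pow]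
    exact pow_lt_one₀ (abs_nonneg _) ht (by norm_num)
  have h1 := Real.hasSum_pow_div_log_of_abs_lt_one ht2
  have h2 := Real.hasSum_log_sub_log_of_abs_lt_one ht
  have h3 := (h2.mul_left (t / 2)).sub (h1.mul_left (1 / 2))
  have hlt := abs_lt.1 ht
  have e : t / 2 * (Real.log (1 + t) - Real.log (1 - t)) - 1 / 2 * -Real.log (1 - t ^ 2) =
      Gf t := by
    have e1 : (1 : ℝ) - t ^ 2 = (1 + t) * (1 - t) := by ring
    rw [e1, Real.log_mul (by linarith) (by linarith)]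
    unfold Gf
    ring
  rw [e] at h3
  have e2 : (fun k : ℕ => t ^ (2 * k + 2) / ((2 * (k : ℝ) + 1) * (2 * k + 2))) =
      fun k : ℕ => t / 2 * ((2 : ℝ) * (1 / (2 * k + 1)) * t ^ (2 * k + 1)) -
        1 / 2 * ((t ^ 2) ^ (k + 1) / ((k : ℝ) + 1)) := by
    funext k
    have e3 : (t ^ 2) ^ (k + 1) = t ^ (2 * k + 2) := by
      rw [← pow_mul]
      congr 1
    have e4 : t ^ (2 * k + 2) = t * t ^ (2 * k + 1) := by ring
    rw [e3, e4]
    have g1 : (2 * (k : ℝ) + 1) ≠ 0 := by positivity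
    have g2 : ((k : ℝ) + 1) ≠ 0 := by positivity
    have g3 : (2 * (k : ℝ) + 2) ≠ 0 := by positivity
    field_simp
    ring
  rw [e2]
  exact h3

lemma Gf_cmp {ρ t w : ℝ} (hρ : |ρ| ≤ t) (ht : t < 1) (hw0 : 0 ≤ w) (hw1 : w ≤ 1) :
    t ^ 2 * (Gf ρ - Gf (w * ρ)) ≤ ρ ^ 2 * (Gf t - Gf (w * t)) := by
  have ht0 : 0 ≤ t := (abs_nonneg _).trans hρ
  have g1 : |ρ| < 1 := hρ.trans_lt ht
  have g2 : |w * ρ| < 1 := by
    rw [abs_mul, abs_of_nonneg hw0]
    exact (mul_le_of_le_one_left (abs_nonneg _) hw1).trans_lt g1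
  have g3 : |t| < 1 := by rwa [abs_of_nonneg ht0]
  have g4 : |w * t| < 1 := by
    rw [abs_mul, abs_of_nonneg hw0]
    exact (mul_le_of_le_one_left (abs_nonneg _) hw1).trans_lt g3
  have s1 := ((Gf_series g1).sub (Gf_series g2)).mul_left (t ^ 2)
  have s2 := ((Gf_series g3).sub (Gf_series g4)).mul_left (ρ ^ 2)
  refine hasSum_le (fun k => ?_) s1 s2
  have hc : 0 < (2 * (k : ℝ) + 1) * (2 * k + 2) := by positivity
  have e1 : t ^ 2 * (ρ ^ (2 * k + 2) / ((2 * (k : ℝ) + 1) * (2 * k + 2)) -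
      (w * ρ) ^ (2 * k + 2) / ((2 * (k : ℝ) + 1) * (2 * k + 2))) =
      (t ^ 2 * ρ ^ 2 * (1 - w ^ (2 * k + 2)) / ((2 * (k : ℝ) + 1) * (2 * k + 2))) *
        (ρ ^ 2) ^ k := by
    rw [mul_pow, pow_add ρ, pow_mul]
    ring
  have e2 : ρ ^ 2 * (t ^ (2 * k + 2) / ((2 * (k : ℝ) + 1) * (2 * k + 2)) -
      (w * t) ^ (2 * k + 2) / ((2 * (k : ℝ) + 1) * (2 * k + 2))) =
      (t ^ 2 * ρ ^ 2 * (1 - w ^ (2 * k + 2)) / ((2 * (k : ℝ) + 1) * (2 * k + 2))) *
        (t ^ 2) ^ k := by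
    rw [mul_pow, pow_add t, pow_mul]
    ring
  rw [e1, e2]
  apply mul_le_mul_of_nonneg_left
  · apply pow_le_pow_left₀ (sq_nonneg _)
    rw [← sq_abs ρ]
    exact pow_le_pow_left₀ (abs_nonneg _) hρ 2
  · apply div_nonneg _ hc.le
    have : w ^ (2 * k + 2) ≤ 1 := pow_le_one₀ hw0 hw1
    have h2 : 0 ≤ 1 - w ^ (2 * k + 2) := by linarith
    positivity

/-- the entropy of two masses -/
lemma two_mass {a b : ℝ} (ha : 0 < a) (hb : 0 < b) :
    a * Real.log a + b * Real.log b =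
      (a + b) * Real.log ((a + b) / 2) + (a + b) * Gf ((a - b) / (a + b)) := by
  have hs : 0 < a + b := by linarith
  have e1 : 1 + (a - b) / (a + b) = a / ((a + b) / 2) := by
    field_simp
    ring
  have e2 : 1 - (a - b) / (a + b) = b / ((a + b) / 2) := by
    field_simp
    ring
  unfold Gf
  rw [e1, e2, Real.log_div ha.ne' (by positivity), Real.log_div hb.ne' (by positivity)]
  field_simp
  ring

/-- **The two-point inequality.** -/
lemma two_pt {a b t q : ℝ} (ha : 0 < a) (hb : 0 < b) (ht0 : 0 < t) (ht1 : t < 1)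
    (hab : |a - b| ≤ t * (a + b)) (hq0 : 0 ≤ q) (hq1 : q ≤ 1 / 2) :
    a * Real.log a + b * Real.log b -
      (((1 - q) * a + q * b) * Real.log ((1 - q) * a + q * b) +
        (q * a + (1 - q) * b) * Real.log (q * a + (1 - q) * b)) ≤
      (Gf t - Gf ((1 - 2 * q) * t)) / t ^ 2 * ((a - b) ^ 2 / (a + b)) := by
  have hs : 0 < a + b := by linarith
  have h1 : 0 < (1 - q) * a + q * b := by nlinarith
  have h2 : 0 < q * a + (1 - q) * b := by nlinarith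
  rw [two_mass ha hb, two_mass h1 h2]
  have e1 : (1 - q) * a + q * b + (q * a + (1 - q) * b) = a + b := by ring
  have e2 : (1 - q) * a + q * b - (q * a + (1 - q) * b) = (1 - 2 * q) * (a - b) := by ring
  rw [e1, e2]
  have hρ : |(a - b) / (a + b)| ≤ t := by
    rw [abs_div, abs_of_pos hs, div_le_iff₀ hs]
    exact hab
  have h3 := Gf_cmp hρ ht1 (by linarith : 0 ≤ 1 - 2 * q) (by linarith)
  have e3 : (1 - 2 * q) * (a - b) / (a + b) = (1 - 2 * q) * ((a - b) / (a + b)) := by ring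
  rw [e3]
  set ρ : ℝ := (a - b) / (a + b) with hρdef
  have e4 : (a - b) ^ 2 / (a + b) = (a + b) * ρ ^ 2 := by
    rw [hρdef]
    field_simp
  rw [e4]
  have e5 : (Gf t - Gf ((1 - 2 * q) * t)) / t ^ 2 * ((a + b) * ρ ^ 2) =
      (a + b) * (ρ ^ 2 * (Gf t - Gf ((1 - 2 * q) * t)) / t ^ 2) := by ring
  rw [e5]
  have h4 : Gf ρ - Gf ((1 - 2 * q) * ρ) ≤
      ρ ^ 2 * (Gf t - Gf ((1 - 2 * q) * t)) / t ^ 2 := by
    rw [le_div_iff₀ (by positivity)]
    linarith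
  have h5 := mul_le_mul_of_nonneg_left h4 hs.le
  linarith

lemma Gf_binEntropy {p : ℝ} (h0 : 0 < p) (h1 : p < 1) :
    Gf (1 - 2 * p) = Real.log 2 - Real.binEntropy p := by
  unfold Gf Real.binEntropy
  have e1 : 1 + (1 - 2 * p) = 2 * (1 - p) := by ring
  have e2 : 1 - (1 - 2 * p) = 2 * p := by ring
  rw [e1, e2, Real.log_mul (by norm_num) (by linarith), Real.log_mul (by norm_num) h0.ne',
    Real.log_inv, Real.log_inv]
  ring

/-- convexity of `x ^ 2 / s` -/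
lemma sq_div_conv {x1 x2 s1 s2 α β : ℝ} (h1 : 0 < s1) (h2 : 0 < s2) (hα : 0 ≤ α) (hβ : 0 ≤ β)
    (hs : 0 < α * s1 + β * s2) :
    (α * x1 + β * x2) ^ 2 / (α * s1 + β * s2) ≤ α * (x1 ^ 2 / s1) + β * (x2 ^ 2 / s2) := by
  rw [div_le_iff₀ hs]
  obtain ⟨u, hu⟩ : ∃ u, x1 = s1 * u := ⟨x1 / s1, by field_simp⟩
  obtain ⟨v, hv⟩ : ∃ v, x2 = s2 * v := ⟨x2 / s2, by field_simp⟩
  subst hu hv
  have e1 : (s1 * u) ^ 2 / s1 = s1 * u ^ 2 := by
    field_simp
  have e2 : (s2 * v) ^ 2 / s2 = s2 * v ^ 2 := by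
    field_simp
  rw [e1, e2]
  have h3 : 0 ≤ (α * s1) * (β * s2) * (u - v) ^ 2 := by positivity
  nlinarith

end Pool.Agent.Helper84.Thresh
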