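import Pool.Agent.Helper84.Thresh.Conc
import Pool.Agent.Helper84.Thresh.Two

/-!
The growth of the entropy under additional noise.
-/

set_option autoImplicit false

namespace Pool.Agent.Helper84.Thresh

open Finset Filter
open Pool.Agent.Helper89K9.GV

/-- the word `y` with the `i`-th letter changed -/
def fl {n : ℕ} (i : Fin n) (y : Fin n → Bool) : Fin n → Bool := Function.update y i (!(y i))

/-- additional noise -/
noncomputable def T {n : ℕ} (q : ℝ) (f : (Fin n → Bool) → ℝ) (z : Fin n → Bool) : ℝ :=
  ∑ y, f y * kern q y z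

/-- minus the entropy -/
noncomputable def S {n : ℕ} (f : (Fin n → Bool) → ℝ) : ℝ := ∑ y, f y * Real.log (f y)

/-- the sum of the local variations -/
noncomputable def Ds {n : ℕ} (f : (Fin n → Bool) → ℝ) : ℝ :=
  ∑ i, ∑ y, (f y - f (fl i y)) ^ 2 / (f y + f (fl i y))

lemma fl_zero {n : ℕ} (b : Bool) (u : Fin n → Bool) :
    fl 0 (Fin.cons b u : Fin (n + 1) → Bool) = Fin.cons (!b) u := by
  unfold fl
  rw [Fin.cons_zero, Fin.update_cons_zero]

lemma fl_succ {n : ℕ} (i : Fin n) (b : Bool) (u : Fin n → Bool) :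
    fl i.succ (Fin.cons b u : Fin (n + 1) → Bool) = Fin.cons b (fl i u) := by
  unfold fl
  rw [Fin.cons_succ, ← Fin.cons_update]

lemma fl_fl {n : ℕ} (i : Fin n) (y : Fin n → Bool) : fl i (fl i y) = y := by
  unfold fl
  rw [Function.update_self, Function.update_idem, Bool.not_not, Function.update_eq_self]

lemma T_cons {n : ℕ} (q : ℝ) (f : (Fin (n + 1) → Bool) → ℝ) (c : Bool) (z : Fin n → Bool) :
    T q f (Fin.cons c z) = T q (fun u => nz q true c * f (Fin.cons true u) +
      nz q false c * f (Fin.cons false u)) z := by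
  unfold T
  rw [Helper89K9.GV.sum_cons, Fintype.sum_bool, ← Finset.sum_add_distrib]
  apply Finset.sum_congr rfl
  intro u _
  rw [kern_cons, kern_cons, Fin.cons_zero, Fin.cons_zero]
  simp only [Fin.tail_cons]
  ring

lemma S_cons {n : ℕ} (f : (Fin (n + 1) → Bool) → ℝ) :
    S f = S (fun u => f (Fin.cons true u)) + S (fun u => f (Fin.cons false u)) := by
  unfold S
  rw [Helper89K9.GV.sum_cons, Fintype.sum_bool]

lemma Ds_cons {n : ℕ} (f : (Fin (n + 1) → Bool) → ℝ) :
    Ds f = 2 * ∑ u : Fin n → Bool, (f (Fin.cons true u) - f (Fin.cons false u)) ^ 2 /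
      (f (Fin.cons true u) + f (Fin.cons false u)) +
      (Ds (fun u => f (Fin.cons true u)) + Ds (fun u => f (Fin.cons false u))) := by
  unfold Ds
  rw [Fin.sum_univ_succ]
  congr 1
  · rw [Helper89K9.GV.sum_cons, Fintype.sum_bool, two_mul]
    congr 1
    · apply Finset.sum_congr rfl
      intro u _
      rw [fl_zero]
      simp
    · apply Finset.sum_congr rfl
      intro u _
      rw [fl_zero]
      simp only [Bool.not_false]
      rw [← neg_sub, neg_sq, add_comm (f (Fin.cons true u))]
  · rw [← Finset.sum_add_distrib]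
    apply Finset.sum_congr rfl
    intro i _
    rw [Helper89K9.GV.sum_cons, Fintype.sum_bool]
    simp only [fl_succ]

/-- **The growth of the entropy.** -/
theorem growth {t q : ℝ} (ht0 : 0 < t) (ht1 : t < 1) (hq0 : 0 ≤ q) (hq1 : q ≤ 1 / 2) :
    ∀ (n : ℕ) (f : (Fin n → Bool) → ℝ), (∀ y, 0 < f y) →
      (∀ i y, |f y - f (fl i y)| ≤ t * (f y + f (fl i y))) →
        S f - S (T q f) ≤ (Gf t - Gf ((1 - 2 * q) * t)) / t ^ 2 / 2 * Ds f := by
  intro n
  induction n with
  | zero =>
    intro f hf _
    have e : T q f = f := by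
      funext z
      unfold T kern
      simp only [Finset.univ_eq_empty, Finset.prod_empty, mul_one]
      rw [Fintype.sum_unique]
      congr 1
      exact Subsingleton.elim _ _
    rw [e, sub_self]
    unfold Ds
    simp
  | succ n ih =>
    intro f hf hlip
    set γ : ℝ := (Gf t - Gf ((1 - 2 * q) * t)) / t ^ 2 with hγ
    have hγ0 : 0 ≤ γ := by
      have h := Gf_cmp (ρ := t) (t := t) (w := 1 - 2 * q) (by rw [abs_of_pos ht0]) ht1
        (by linarith) (by linarith)
      have h2 := Gf_cmp (ρ := 0) (t := t) (w := 1 - 2 * q) (by rw [abs_zero]; exact ht0.le) ht1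
        (by linarith) (by linarith)
      have h4 : |t| < 1 := by rwa [abs_of_pos ht0]
      have h5 : |(1 - 2 * q) * t| < 1 := by
        rw [abs_mul, abs_of_nonneg (by linarith : 0 ≤ 1 - 2 * q)]
        exact (mul_le_of_le_one_left (abs_nonneg _) (by linarith)).trans_lt h4
      have h3 : Gf ((1 - 2 * q) * t) ≤ Gf t := by
        refine hasSum_le (fun k => ?_) (Gf_series h5) (Gf_series h4)
        apply div_le_div_of_nonneg_right _ (by positivity)
        apply pow_le_pow_left₀ (mul_nonneg (by linarith) ht0.le)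
        nlinarith
      rw [hγ]
      apply div_nonneg _ (by positivity)
      linarith
    set f1 : (Fin n → Bool) → ℝ := fun u => f (Fin.cons true u) with hf1
    set f0 : (Fin n → Bool) → ℝ := fun u => f (Fin.cons false u) with hf0
    set g1 : (Fin n → Bool) → ℝ := fun u => (1 - q) * f1 u + q * f0 u with hg1
    set g0 : (Fin n → Bool) → ℝ := fun u => q * f1 u + (1 - q) * f0 u with hg0
    have p1 : ∀ u, 0 < f1 u := fun u => hf _
    have p0 : ∀ u, 0 < f0 u := fun u => hf _
    have pg1 : ∀ u, 0 < g1 u := fun u => by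
      have := p1 u
      have := p0 u
      simp only [hg1]
      nlinarith
    have pg0 : ∀ u, 0 < g0 u := fun u => by
      have := p1 u
      have := p0 u
      simp only [hg0]
      nlinarith
    have l1 : ∀ i u, |f1 u - f1 (fl i u)| ≤ t * (f1 u + f1 (fl i u)) := fun i u => by
      have := hlip i.succ (Fin.cons true u)
      rwa [fl_succ] at this
    have l0 : ∀ i u, |f0 u - f0 (fl i u)| ≤ t * (f0 u + f0 (fl i u)) := fun i u => by
      have := hlip i.succ (Fin.cons false u)
      rwa [fl_succ] at this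
    have lg1 : ∀ i u, |g1 u - g1 (fl i u)| ≤ t * (g1 u + g1 (fl i u)) := fun i u => by
      have a1 := abs_le.1 (l1 i u)
      have a0 := abs_le.1 (l0 i u)
      simp only [hg1]
      rw [abs_le]
      constructor <;> nlinarith
    have lg0 : ∀ i u, |g0 u - g0 (fl i u)| ≤ t * (g0 u + g0 (fl i u)) := fun i u => by
      have a1 := abs_le.1 (l1 i u)
      have a0 := abs_le.1 (l0 i u)
      simp only [hg0]
      rw [abs_le]
      constructor <;> nlinarith
    have hT1 : (fun u => T q f (Fin.cons true u)) = T q g1 := by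
      funext z
      rw [T_cons]
      simp [nz, hg1, hf1, hf0]
    have hT0 : (fun u => T q f (Fin.cons false u)) = T q g0 := by
      funext z
      rw [T_cons]
      simp [nz, hg0, hf1, hf0]
    have hS : S (T q f) = S (T q g1) + S (T q g0) := by
      rw [S_cons, hT1, hT0]
    have hSf : S f = S f1 + S f0 := S_cons f
    have i1 := ih g1 pg1 lg1
    have i0 := ih g0 pg0 lg0
    -- the first letter
    have hfirst : S f1 + S f0 - (S g1 + S g0) ≤
        γ * ∑ u, (f1 u - f0 u) ^ 2 / (f1 u + f0 u) := by
      unfold S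
      rw [← Finset.sum_add_distrib, ← Finset.sum_add_distrib, ← Finset.sum_sub_distrib,
        Finset.mul_sum]
      apply Finset.sum_le_sum
      intro u _
      have hl : |f1 u - f0 u| ≤ t * (f1 u + f0 u) := by
        have := hlip 0 (Fin.cons true u)
        rwa [fl_zero] at this
      exact two_pt (p1 u) (p0 u) ht0 ht1 hl hq0 hq1
    -- the other letters
    have hother : Ds g1 + Ds g0 ≤ Ds f1 + Ds f0 := by
      unfold Ds
      rw [← Finset.sum_add_distrib, ← Finset.sum_add_distrib]
      apply Finset.sum_le_sum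
      intro i _
      rw [← Finset.sum_add_distrib, ← Finset.sum_add_distrib]
      apply Finset.sum_le_sum
      intro u _
      have s1 : 0 < f1 u + f1 (fl i u) := add_pos (p1 _) (p1 _)
      have s0 : 0 < f0 u + f0 (fl i u) := add_pos (p0 _) (p0 _)
      have c1 := sq_div_conv (x1 := f1 u - f1 (fl i u)) (x2 := f0 u - f0 (fl i u)) s1 s0
        (by linarith : 0 ≤ 1 - q) hq0 (by nlinarith)
      have c0 := sq_div_conv (x1 := f1 u - f1 (fl i u)) (x2 := f0 u - f0 (fl i u)) s1 s0
        hq0 (by linarith : 0 ≤ 1 - q) (by nlinarith)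
      have e1 : (1 - q) * (f1 u - f1 (fl i u)) + q * (f0 u - f0 (fl i u)) =
          g1 u - g1 (fl i u) := by simp only [hg1]; ring
      have e2 : (1 - q) * (f1 u + f1 (fl i u)) + q * (f0 u + f0 (fl i u)) =
          g1 u + g1 (fl i u) := by simp only [hg1]; ring
      have e3 : q * (f1 u - f1 (fl i u)) + (1 - q) * (f0 u - f0 (fl i u)) =
          g0 u - g0 (fl i u) := by simp only [hg0]; ring
      have e4 : q * (f1 u + f1 (fl i u)) + (1 - q) * (f0 u + f0 (fl i u)) =
          g0 u + g0 (fl i u) := by simp only [hg0]; ring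
      rw [e1, e2] at c1
      rw [e3, e4] at c0
      linarith
    have hD := Ds_cons f
    have hother' := mul_le_mul_of_nonneg_left hother (by linarith : 0 ≤ γ / 2)
    rw [hSf, hS, hD]
    have e5 : γ / 2 * (2 * ∑ u : Fin n → Bool, (f (Fin.cons true u) - f (Fin.cons false u)) ^ 2 /
      (f (Fin.cons true u) + f (Fin.cons false u)) +
      (Ds (fun u => f (Fin.cons true u)) + Ds (fun u => f (Fin.cons false u)))) =
        γ * ∑ u, (f1 u - f0 u) ^ 2 / (f1 u + f0 u) + γ / 2 * (Ds f1 + Ds f0) := by
      simp only [hf1, hf0]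
      ring
    rw [e5]
    linarith

/-- the entropy does not decrease -/
lemma S_T_le {n : ℕ} {q : ℝ} (hq0 : 0 ≤ q) (hq1 : q ≤ 1) (f : (Fin n → Bool) → ℝ)
    (hf : ∀ y, 0 ≤ f y) : S (T q f) ≤ S f := by
  have h : ∀ z : Fin n → Bool, T q f z * Real.log (T q f z) ≤
      ∑ y, kern q y z * (f y * Real.log (f y)) := by
    intro z
    have h2 := Real.convexOn_mul_log.map_sum_le (t := univ) (w := fun y => kern q y z)
      (p := f) (fun y _ => kern_nonneg hq0 hq1 y z) (by
        simp_rw [kern_comm q _ z]
        exact sum_kern q z) (fun y _ => hf y)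
    simp only [smul_eq_mul] at h2
    have e : ∑ y, kern q y z * f y = T q f z := by
      unfold T
      exact Finset.sum_congr rfl fun y _ => mul_comm _ _
    rw [e] at h2
    exact h2
  unfold S
  refine (Finset.sum_le_sum fun z _ => h z).trans (le_of_eq ?_)
  rw [Finset.sum_comm]
  apply Finset.sum_congr rfl
  intro y _
  rw [← Finset.sum_mul, sum_kern, one_mul]

lemma nz_comp (p q : ℝ) (a c : Bool) :
    ∑ b, nz p a b * nz q b c = nz (p + (1 - 2 * p) * q) a c := by
  unfold nz
  cases a <;> cases c <;> simp <;> ring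

lemma kern_comp {n : ℕ} (p q : ℝ) (x z : Fin n → Bool) :
    ∑ y, kern p x y * kern q y z = kern (p + (1 - 2 * p) * q) x z := by
  unfold kern
  simp_rw [← Finset.prod_mul_distrib]
  rw [prod_sum_fun (fun i b => nz p (x i) b * nz q b (z i))]
  exact Finset.prod_congr rfl fun i _ => nz_comp _ _ _ _

lemma T_mix {n : ℕ} (p q : ℝ) (C : Finset (Fin n → Bool)) :
    T q (mix p C) = mix (p + (1 - 2 * p) * q) C := by
  funext z
  unfold T mix
  simp_rw [Finset.sum_mul]
  rw [Finset.sum_comm]
  exact Finset.sum_congr rfl fun x _ => kern_comp p q x z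

/-- flipping one letter of the received word -/
lemma kern_fl {n : ℕ} {p : ℝ} (h0 : 0 < p) (h1 : p < 1) (x y : Fin n → Bool) (i : Fin n) :
    kern p x (fl i y) = (if x i = y i then p / (1 - p) else (1 - p) / p) * kern p x y := by
  have hp : (1 : ℝ) - p ≠ 0 := by linarith
  have hp0 : p ≠ 0 := h0.ne'
  unfold kern
  rw [← Finset.mul_prod_erase univ _ (Finset.mem_univ i),
    ← Finset.mul_prod_erase univ (fun j => nz p (x j) (y j)) (Finset.mem_univ i), ← mul_assoc]
  congr 1
  · unfold fl nz
    rw [Function.update_self]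
    by_cases h : x i = y i
    · rw [h]
      simp [hp]
    · have h2 : x i = !(y i) := by
        cases hx : x i <;> cases hy : y i <;> simp_all
      rw [if_neg h, h2]
      simp [hp0]
  · apply Finset.prod_congr rfl
    intro j hj
    unfold fl
    rw [Function.update_of_ne (Finset.ne_of_mem_erase hj)]

end Pool.Agent.Helper84.Thresh
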