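import Pool.Agent.Helper84.Thresh.Basic

/-!
Comparison of two noise levels: coupling, and concentration.
-/

set_option autoImplicit false

namespace Pool.Agent.Helper84.Thresh

open Finset Filter
open Pool.Agent.Helper89K9.GV

variable {n : ℕ}

/-- additional noise: a letter `b` equal to the sent letter `a` is changed with probability `q` -/
noncomputable def tr1 (q : ℝ) (a b c : Bool) : ℝ :=
  if b = a then nz q b c else (if c = b then 1 else 0)

/-- additional noise for words -/
noncomputable def K (q : ℝ) (x y z : Fin n → Bool) : ℝ := ∏ i, tr1 q (x i) (y i) (z i)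

lemma tr1_nonneg {q : ℝ} (h0 : 0 ≤ q) (h1 : q ≤ 1) (a b c : Bool) : 0 ≤ tr1 q a b c := by
  unfold tr1
  split_ifs
  · exact nz_nonneg h0 h1 _ _
  · norm_num
  · norm_num

lemma K_nonneg {q : ℝ} (h0 : 0 ≤ q) (h1 : q ≤ 1) (x y z : Fin n → Bool) : 0 ≤ K q x y z :=
  Finset.prod_nonneg fun _ _ => tr1_nonneg h0 h1 _ _ _

lemma sum_tr1 (q : ℝ) (a b : Bool) : ∑ c, tr1 q a b c = 1 := by
  unfold tr1 nz
  cases a <;> cases b <;> simp

lemma prod_sum_fun (g : Fin n → Bool → ℝ) :
    ∑ u : Fin n → Bool, ∏ i, g i (u i) = ∏ i, ∑ b, g i b := by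
  have h := Finset.prod_univ_sum (fun _ : Fin n => (univ : Finset Bool)) g
  rw [Fintype.piFinset_univ] at h
  exact h.symm

lemma sum_K (q : ℝ) (x y : Fin n → Bool) : ∑ z, K q x y z = 1 := by
  unfold K
  rw [prod_sum_fun (fun i c => tr1 q (x i) (y i) c)]
  exact Finset.prod_eq_one fun i _ => sum_tr1 q _ _

lemma comp_tr1 {p1 p2 q : ℝ} (h : p2 = p1 + (1 - p1) * q) (a c : Bool) :
    ∑ b, nz p1 a b * tr1 q a b c = nz p2 a c := by
  unfold tr1 nz
  rw [h]
  cases a <;> cases c <;> simp <;> ring

lemma comp_K {p1 p2 q : ℝ} (h : p2 = p1 + (1 - p1) * q) (x z : Fin n → Bool) :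
    ∑ y, kern p1 x y * K q x y z = kern p2 x z := by
  unfold kern K
  simp_rw [← Finset.prod_mul_distrib]
  rw [prod_sum_fun (fun i b => nz p1 (x i) b * tr1 q (x i) b (z i))]
  exact Finset.prod_congr rfl fun i _ => comp_tr1 h _ _

/-- product measures: the expectation of a sum over the coordinates -/
lemma prod_lin (k g : Fin n → Bool → ℝ) (hk : ∀ i, ∑ b, k i b = 1) :
    ∑ u : Fin n → Bool, (∏ i, k i (u i)) * ∑ i, g i (u i) = ∑ i, ∑ b, k i b * g i b := by
  classical
  simp_rw [Finset.mul_sum]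
  rw [Finset.sum_comm]
  apply Finset.sum_congr rfl
  intro i _
  have e : ∀ u : Fin n → Bool, (∏ j, k j (u j)) * g i (u i) =
      ∏ j, (k j (u j) * (if j = i then g i (u j) else 1)) := by
    intro u
    rw [Finset.prod_mul_distrib, Finset.prod_ite_eq' univ i]
    simp
  simp_rw [e]
  rw [prod_sum_fun (fun j b => k j b * (if j = i then g i b else 1)),
    Finset.prod_eq_single i]
  · simp
  · intro j _ hj
    simp only [if_neg hj, mul_one]
    exact hk j
  · intro h
    exact absurd (Finset.mem_univ i) h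

lemma hd_sum (x y : Fin n → Bool) :
    (hammingDist x y : ℝ) = ∑ i, if x i ≠ y i then (1 : ℝ) else 0 := by
  unfold hammingDist
  rw [Finset.card_filter]
  push_cast
  rfl

lemma dd_sum (x c y : Fin n → Bool) :
    dd x c y = ∑ i, ((if c i ≠ y i then (1 : ℝ) else 0) - (if x i ≠ y i then (1 : ℝ) else 0)) := by
  unfold dd
  rw [hd_sum, hd_sum, Finset.sum_sub_distrib]

lemma lin_K (q : ℝ) (x c y : Fin n → Bool) :
    ∑ z, K q x y z * dd x c z = (1 - q) * dd x c y - q * hammingDist x c := by
  unfold K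
  simp_rw [dd_sum x c]
  rw [prod_lin (fun i b => tr1 q (x i) (y i) b)
    (fun i b => (if c i ≠ b then (1 : ℝ) else 0) - (if x i ≠ b then (1 : ℝ) else 0))
    (fun i => sum_tr1 q _ _), hd_sum, Finset.mul_sum, Finset.mul_sum, ← Finset.sum_sub_distrib]
  apply Finset.sum_congr rfl
  intro i _
  unfold tr1 nz
  cases x i <;> cases y i <;> cases c i <;> simp <;> ring

/-- the inequality of Gibbs -/
lemma gibbs {ι : Type*} (s : Finset ι) (w a : ι → ℝ) (hw : ∀ i ∈ s, 0 < w i)
    (hs : ∑ i ∈ s, w i = 1) :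
    ∑ i ∈ s, w i * (a i - Real.log (w i)) ≤ Real.log (∑ i ∈ s, Real.exp (a i)) := by
  have h := (strictConcaveOn_log_Ioi.concaveOn).le_map_sum (t := s) (w := w)
    (p := fun i => Real.exp (a i) / w i) (fun i hi => (hw i hi).le) hs
    (fun i hi => div_pos (Real.exp_pos _) (hw i hi))
  simp only [smul_eq_mul] at h
  have e1 : ∑ i ∈ s, w i * (Real.exp (a i) / w i) = ∑ i ∈ s, Real.exp (a i) :=
    Finset.sum_congr rfl fun i hi => mul_div_cancel₀ _ (hw i hi).ne'
  rw [e1] at h
  refine le_trans (le_of_eq ?_) h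
  apply Finset.sum_congr rfl
  intro i hi
  rw [Real.log_div (Real.exp_pos _).ne' (hw i hi).ne', Real.log_exp]

/-- **The comparison of two noise levels.** -/
lemma key {p1 p2 q : ℝ} (h0 : 0 < p1) (h12 : p1 < p2) (h2 : p2 < 1 / 2)
    (hq : p2 = p1 + (1 - p1) * q) {C : Finset (Fin n → Bool)} {x : Fin n → Bool}
    (hne : (C.erase x).Nonempty) {Δ : ℝ} (hΔ : ∀ c ∈ C.erase x, Δ ≤ hammingDist x c) :
    ex p1 x (fun y => min 0 (Real.log (Lam p1 C x y))) + bt p2 * q * Δ ≤
      ex p2 x (fun y => Real.log (Lam p2 C x y)) := by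
  classical
  have hq0 : 0 ≤ q := by
    by_contra hcon
    push Not at hcon
    nlinarith
  have hq1 : q ≤ 1 := by
    by_contra hcon
    push Not at hcon
    nlinarith
  have hb2 : 0 < bt p2 := bt_pos (h0.trans h12) h2
  have hb12 : bt p2 ≤ bt p1 := by
    unfold bt
    apply Real.log_le_log (div_pos (by linarith) (by linarith))
    rw [div_le_div_iff₀ (by linarith) h0]
    nlinarith
  -- the second expectation through the coupling
  have e1 : ex p2 x (fun z => Real.log (Lam p2 C x z)) =
      ex p1 x (fun y => ∑ z, K q x y z * Real.log (Lam p2 C x z)) := by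
    unfold ex
    simp_rw [← comp_K hq, Finset.sum_mul, Finset.mul_sum]
    rw [Finset.sum_comm]
    apply Finset.sum_congr rfl
    intro y _
    apply Finset.sum_congr rfl
    intro z _
    ring
  rw [e1, ← ex_const p1 x (bt p2 * q * Δ), ← ex_add]
  apply ex_mono h0.le (by linarith)
  intro y
  -- weights
  set v : (Fin n → Bool) → ℝ := fun c => min 1 (Real.exp (-(bt p1 * dd x c y))) with hv
  have hv0 : ∀ c, 0 < v c := fun c => lt_min one_pos (Real.exp_pos _)
  set V : ℝ := ∑ c ∈ C.erase x, v c with hV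
  have hV0 : 0 < V := Finset.sum_pos (fun c _ => hv0 c) hne
  have hVge : min 0 (Real.log (Lam p1 C x y)) ≤ Real.log V := by
    have hL := Lam_pos p1 hne y
    rcases Classical.em (∃ c ∈ C.erase x, v c = 1) with h | h
    · obtain ⟨c, hc, hc1⟩ := h
      have : 1 ≤ V := by
        rw [← hc1]
        exact Finset.single_le_sum (f := v) (fun c _ => (hv0 c).le) hc
      exact (min_le_left _ _).trans (Real.log_nonneg this)
    · push Not at h
      have : V = Lam p1 C x y := by
        rw [hV]
        unfold Lam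
        apply Finset.sum_congr rfl
        intro c hc
        have h3 := h c hc
        simp only [hv] at h3 ⊢
        rcases min_choice (1 : ℝ) (Real.exp (-(bt p1 * dd x c y))) with h4 | h4
        · exact absurd h4 h3
        · exact h4
      rw [this]
      exact min_le_right _ _
  have hlogv : ∀ c, Real.log (v c) ≤ -((1 - q) * bt p2 * dd x c y) := by
    intro c
    rcases le_total 0 (dd x c y) with h | h
    · have h3 : v c ≤ Real.exp (-(bt p1 * dd x c y)) := min_le_right _ _
      have h4 := Real.log_le_log (hv0 c) h3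
      rw [Real.log_exp] at h4
      have h5 : (1 - q) * bt p2 ≤ bt p1 := by nlinarith
      have h6 := mul_le_mul_of_nonneg_right h5 h
      linarith
    · have h3 : v c ≤ 1 := min_le_left _ _
      have h4 := Real.log_le_log (hv0 c) h3
      rw [Real.log_one] at h4
      have h5 : 0 ≤ (1 - q) * bt p2 := mul_nonneg (by linarith) hb2.le
      have h6 := mul_nonneg h5 (neg_nonneg.2 h)
      linarith
  have hg : ∀ z : Fin n → Bool, ∑ c ∈ C.erase x, v c / V * (-(bt p2 * dd x c z) -
      Real.log (v c / V)) ≤ Real.log (Lam p2 C x z) := by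
    intro z
    apply gibbs
    · intro c _
      exact div_pos (hv0 c) hV0
    · rw [← Finset.sum_div, div_self hV0.ne']
  have h7 : ∑ z, K q x y z * ∑ c ∈ C.erase x, v c / V * (-(bt p2 * dd x c z) -
      Real.log (v c / V)) ≤ ∑ z, K q x y z * Real.log (Lam p2 C x z) :=
    Finset.sum_le_sum fun z _ => mul_le_mul_of_nonneg_left (hg z) (K_nonneg hq0 hq1 _ _ _)
  refine le_trans ?_ h7
  have e2 : ∑ z, K q x y z * ∑ c ∈ C.erase x, v c / V * (-(bt p2 * dd x c z) -
      Real.log (v c / V)) = ∑ c ∈ C.erase x, v c / V *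
        (-(bt p2 * ((1 - q) * dd x c y - q * hammingDist x c)) - Real.log (v c / V)) := by
    simp_rw [Finset.mul_sum]
    rw [Finset.sum_comm]
    apply Finset.sum_congr rfl
    intro c _
    rw [← lin_K]
    have e3 : ∀ z, K q x y z * (v c / V * (-(bt p2 * dd x c z) - Real.log (v c / V))) =
        v c / V * (-(bt p2)) * (K q x y z * dd x c z) -
        v c / V * Real.log (v c / V) * K q x y z := fun z => by ring
    simp_rw [e3]
    rw [Finset.sum_sub_distrib, ← Finset.mul_sum, ← Finset.mul_sum, sum_K]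
    ring
  rw [e2]
  have h8 : ∑ c ∈ C.erase x, v c / V * (bt p2 * q * Δ + Real.log V) ≤
      ∑ c ∈ C.erase x, v c / V *
        (-(bt p2 * ((1 - q) * dd x c y - q * hammingDist x c)) - Real.log (v c / V)) := by
    apply Finset.sum_le_sum
    intro c hc
    apply mul_le_mul_of_nonneg_left _ (div_pos (hv0 c) hV0).le
    rw [Real.log_div (hv0 c).ne' hV0.ne']
    have h9 := hlogv c
    have h10 : bt p2 * q * Δ ≤ bt p2 * q * hammingDist x c :=
      mul_le_mul_of_nonneg_left (hΔ c hc) (mul_nonneg hb2.le hq0)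
    nlinarith
  rw [← Finset.sum_mul, ← Finset.sum_div, div_self hV0.ne', one_mul] at h8
  linarith

end Pool.Agent.Helper84.Thresh
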