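import Pool.Agent.Helper84.Thresh.Ent

/-!
The overlap of two words drawn from the posterior distribution.
-/

set_option autoImplicit false

namespace Pool.Agent.Helper84.Thresh

open Finset Filter
open Pool.Agent.Helper89K9.GV
open Pool.Agent.Results.MP_0430e4_lc.ConstantWeightCriterion (IsCode H)

variable {n : ℕ}

/-- the words which agree with `y` in the letter `i` -/
noncomputable def Aa (p : ℝ) (C : Finset (Fin n → Bool)) (i : Fin n) (y : Fin n → Bool) : ℝ :=
  ∑ x ∈ C, if x i = y i then kern p x y else 0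

/-- the words which differ from `y` in the letter `i` -/
noncomputable def Bb (p : ℝ) (C : Finset (Fin n → Bool)) (i : Fin n) (y : Fin n → Bool) : ℝ :=
  ∑ x ∈ C, if x i = y i then 0 else kern p x y

lemma AB_sum (p : ℝ) (C : Finset (Fin n → Bool)) (i : Fin n) (y : Fin n → Bool) :
    mix p C y = Aa p C i y + Bb p C i y := by
  unfold mix Aa Bb
  rw [← Finset.sum_add_distrib]
  apply Finset.sum_congr rfl
  intro x _
  split_ifs <;> simp

lemma fl_apply (i : Fin n) (y : Fin n → Bool) : fl i y i = !(y i) := by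
  unfold fl
  rw [Function.update_self]

lemma Aa_fl {p : ℝ} (h0 : 0 < p) (h1 : p < 1) (C : Finset (Fin n → Bool)) (i : Fin n)
    (y : Fin n → Bool) : Aa p C i (fl i y) = (1 - p) / p * Bb p C i y := by
  unfold Aa Bb
  rw [Finset.mul_sum]
  apply Finset.sum_congr rfl
  intro x _
  rw [kern_fl h0 h1, fl_apply]
  by_cases h : x i = y i
  · rw [h]
    simp
  · have h2 : x i = !(y i) := by
      cases hx : x i <;> cases hy : y i <;> simp_all
    rw [if_pos h2, if_neg h, if_neg h]

lemma Bb_fl {p : ℝ} (h0 : 0 < p) (h1 : p < 1) (C : Finset (Fin n → Bool)) (i : Fin n)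
    (y : Fin n → Bool) : Bb p C i (fl i y) = p / (1 - p) * Aa p C i y := by
  unfold Aa Bb
  rw [Finset.mul_sum]
  apply Finset.sum_congr rfl
  intro x _
  rw [kern_fl h0 h1, fl_apply]
  by_cases h : x i = y i
  · rw [h]
    simp
  · have h2 : x i = !(y i) := by
      cases hx : x i <;> cases hy : y i <;> simp_all
    rw [if_pos h2, if_neg h, mul_zero]

lemma Aa_nonneg {p : ℝ} (h0 : 0 ≤ p) (h1 : p ≤ 1) (C : Finset (Fin n → Bool)) (i : Fin n)
    (y : Fin n → Bool) : 0 ≤ Aa p C i y := by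
  apply Finset.sum_nonneg
  intro x _
  split_ifs
  · exact kern_nonneg h0 h1 _ _
  · exact le_rfl

lemma Bb_nonneg {p : ℝ} (h0 : 0 ≤ p) (h1 : p ≤ 1) (C : Finset (Fin n → Bool)) (i : Fin n)
    (y : Fin n → Bool) : 0 ≤ Bb p C i y := by
  apply Finset.sum_nonneg
  intro x _
  split_ifs
  · exact le_rfl
  · exact kern_nonneg h0 h1 _ _

/-- the overlap of two independent words from the posterior distribution -/
noncomputable def Ov (p : ℝ) (C : Finset (Fin n → Bool)) : ℝ :=
  ∑ i, ∑ y, 2 * Aa p C i y * Bb p C i y / mix p C y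

lemma pair_eq (p : ℝ) (C : Finset (Fin n → Bool)) (i : Fin n) (y : Fin n → Bool) :
    ∑ x ∈ C, ∑ z ∈ C, kern p x y * kern p z y * (if x i ≠ z i then (1 : ℝ) else 0) =
      2 * Aa p C i y * Bb p C i y := by
  have e : ∀ x z : Fin n → Bool, kern p x y * kern p z y * (if x i ≠ z i then (1 : ℝ) else 0) =
      (if x i = y i then kern p x y else 0) * (if z i = y i then 0 else kern p z y) +
      (if x i = y i then 0 else kern p x y) * (if z i = y i then kern p z y else 0) := by
    intro x z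
    cases x i <;> cases y i <;> cases z i <;> simp
  simp_rw [e, Finset.sum_add_distrib, ← Finset.mul_sum, ← Finset.sum_mul]
  unfold Aa Bb
  ring

/-- the overlap is large if the code is confused -/
lemma ov_ge {p : ℝ} (h0 : 0 < p) (h1 : p < 1) {C : Finset (Fin n → Bool)} (hC : C.Nonempty)
    {Δ : ℝ} (hΔ : ∀ x ∈ C, ∀ z ∈ C, x ≠ z → Δ ≤ hammingDist x z) :
    Δ * psi p C ≤ Ov p C := by
  classical
  rw [psi_eq]
  unfold Ov
  rw [Finset.sum_comm, Finset.mul_sum]
  apply Finset.sum_le_sum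
  intro y _
  have hm := mix_pos h0 h1 hC y
  rw [← Finset.sum_div, ← sub_nonneg]
  have e1 : mix p C y - sqs p C y / mix p C y = (mix p C y ^ 2 - sqs p C y) / mix p C y := by
    field_simp
  have e2 : mix p C y ^ 2 - sqs p C y =
      ∑ x ∈ C, ∑ z ∈ C, kern p x y * kern p z y * (if x ≠ z then (1 : ℝ) else 0) := by
    have e3 : mix p C y ^ 2 = ∑ x ∈ C, ∑ z ∈ C, kern p x y * kern p z y := by
      unfold mix
      rw [pow_two, Finset.sum_mul_sum]
    have e4 : sqs p C y = ∑ x ∈ C, ∑ z ∈ C, (if x = z then kern p x y * kern p z y else 0) := by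
      unfold sqs
      apply Finset.sum_congr rfl
      intro x hx
      rw [Finset.sum_ite_eq C x (fun z => kern p x y * kern p z y), if_pos hx, pow_two]
    rw [e3, e4, ← Finset.sum_sub_distrib]
    apply Finset.sum_congr rfl
    intro x _
    rw [← Finset.sum_sub_distrib]
    apply Finset.sum_congr rfl
    intro z _
    by_cases h : x = z <;> simp [h]
  have e5 : ∑ i, 2 * Aa p C i y * Bb p C i y =
      ∑ x ∈ C, ∑ z ∈ C, kern p x y * kern p z y * hammingDist x z := by
    simp_rw [← pair_eq, hd_sum, Finset.mul_sum]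
    rw [Finset.sum_comm]
    apply Finset.sum_congr rfl
    intro x _
    rw [Finset.sum_comm]
  rw [e1, e2, e5, mul_div_assoc', ← sub_div]
  apply div_nonneg _ hm.le
  rw [Finset.mul_sum, ← Finset.sum_sub_distrib]
  apply Finset.sum_nonneg
  intro x hx
  rw [Finset.mul_sum, ← Finset.sum_sub_distrib]
  apply Finset.sum_nonneg
  intro z hz
  have hk := mul_nonneg (kern_nonneg h0.le h1.le x y) (kern_nonneg h0.le h1.le z y)
  by_cases h : x = z
  · subst h
    simp
  · rw [if_pos h, mul_one]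
    have := mul_le_mul_of_nonneg_left (hΔ x hx z hz h) hk
    linarith

lemma tangent {r M M0 : ℝ} (hr0 : 0 ≤ r) (hr1 : r < 1) (hM1 : M ≤ 1) (hM01 : M0 ≤ 1) :
    (1 - r) / 2 * ((1 - M) / (1 - r * M)) ≤ (1 - r) / 2 * ((1 - M0) / (1 - r * M0)) +
      (1 - r) ^ 2 / (2 * (1 - r * M0) ^ 2) * (M0 - M) := by
  have h1 : 0 < 1 - r * M := by nlinarith
  have h2 : 0 < 1 - r * M0 := by nlinarith
  rw [← sub_nonneg]
  have e : (1 - r) / 2 * ((1 - M0) / (1 - r * M0)) +
      (1 - r) ^ 2 / (2 * (1 - r * M0) ^ 2) * (M0 - M) -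
      (1 - r) / 2 * ((1 - M) / (1 - r * M)) =
      r * (1 - r) ^ 2 * (M0 - M) ^ 2 / (2 * (1 - r * M0) ^ 2 * (1 - r * M)) := by
    field_simp
    ring
  rw [e]
  positivity

lemma pair_ineq {p α β M0 : ℝ} (h0 : 0 < p) (h1 : p < 1 / 2) (hα : 0 ≤ α) (hβ : 0 ≤ β)
    (hs : 0 < α + β) (hM01 : M0 ≤ 1) :
    2 * ((1 - p) * α) * (p * β) / ((1 - p) * α + p * β) +
      2 * ((1 - p) * α) * (p * β) / (p * α + (1 - p) * β) ≤
      (α + β) * ((1 - (1 - 2 * p) ^ 2) / 2 * ((1 - M0) / (1 - (1 - 2 * p) ^ 2 * M0)) +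
        (1 - (1 - 2 * p) ^ 2) ^ 2 / (2 * (1 - (1 - 2 * p) ^ 2 * M0) ^ 2) * M0) -
      (1 - (1 - 2 * p) ^ 2) ^ 2 / (2 * (1 - (1 - 2 * p) ^ 2 * M0) ^ 2) *
        ((α - β) ^ 2 / (α + β)) := by
  set r : ℝ := (1 - 2 * p) ^ 2 with hr
  have hr0 : 0 ≤ r := sq_nonneg _
  have hr1 : r < 1 := by rw [hr]; nlinarith
  have f1 : 0 < (1 - p) * α + p * β := by nlinarith
  have f2 : 0 < p * α + (1 - p) * β := by nlinarith
  obtain ⟨m, hm⟩ : ∃ m, α - β = m * (α + β) := ⟨(α - β) / (α + β), by field_simp⟩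
  set s : ℝ := α + β with hsdef
  have hα' : α = s * (1 + m) / 2 := by linarith
  have hβ' : β = s * (1 - m) / 2 := by linarith
  have hm1 : m ≤ 1 := by
    by_contra hcon
    push Not at hcon
    have : 0 < s * (m - 1) := mul_pos hs (by linarith)
    linarith
  have hm2 : -1 ≤ m := by
    by_contra hcon
    push Not at hcon
    have : 0 < s * (-1 - m) := mul_pos hs (by linarith)
    linarith
  have hM : m ^ 2 ≤ 1 := by nlinarith
  have ht := tangent hr0 hr1 hM hM01
  have hrm : 0 < 1 - r * m ^ 2 := by nlinarith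
  have e1 : 2 * ((1 - p) * α) * (p * β) / ((1 - p) * α + p * β) +
      2 * ((1 - p) * α) * (p * β) / (p * α + (1 - p) * β) =
      s * ((1 - r) / 2 * ((1 - m ^ 2) / (1 - r * m ^ 2))) := by
    have g : ((1 - p) * α + p * β) * (p * α + (1 - p) * β) = s ^ 2 * (1 - r * m ^ 2) / 4 := by
      rw [hα', hβ', hr]
      ring
    rw [div_add_div _ _ f1.ne' f2.ne', g]
    have g2 : 2 * ((1 - p) * α) * (p * β) * (p * α + (1 - p) * β) +
        ((1 - p) * α + p * β) * (2 * ((1 - p) * α) * (p * β)) =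
        s ^ 3 * ((1 - r) / 2) * (1 - m ^ 2) / 4 := by
      rw [hα', hβ', hr]
      ring
    rw [g2]
    field_simp
  have e2 : (α - β) ^ 2 / s = s * m ^ 2 := by
    rw [hm]
    field_simp
  rw [e1, e2]
  have h5 := mul_le_mul_of_nonneg_left ht hs.le
  linarith

/-- the relation to the local variations of the distribution of the received word -/
lemma ab_rel {p : ℝ} (h0 : 0 < p) (h1 : p < 1) (C : Finset (Fin n → Bool)) (i : Fin n)
    (y : Fin n → Bool) :
    ∃ α β : ℝ, 0 ≤ α ∧ 0 ≤ β ∧ Aa p C i y = (1 - p) * α ∧ Bb p C i y = p * β ∧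
      mix p C y = (1 - p) * α + p * β ∧ mix p C (fl i y) = p * α + (1 - p) * β ∧
      Aa p C i (fl i y) = (1 - p) * β ∧ Bb p C i (fl i y) = p * α := by
  have hp : (1 : ℝ) - p ≠ 0 := by linarith
  have hp0 : p ≠ 0 := h0.ne'
  refine ⟨Aa p C i y / (1 - p), Bb p C i y / p,
    div_nonneg (Aa_nonneg h0.le h1.le _ _ _) (by linarith),
    div_nonneg (Bb_nonneg h0.le h1.le _ _ _) h0.le, by field_simp, by field_simp, ?_, ?_, ?_, ?_⟩
  · rw [AB_sum p C i]
    field_simp
  · rw [AB_sum p C i, Aa_fl h0 h1, Bb_fl h0 h1]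
    field_simp
    ring
  · rw [Aa_fl h0 h1]
    field_simp
  · rw [Bb_fl h0 h1]
    field_simp

lemma sum_fl (i : Fin n) (g : (Fin n → Bool) → ℝ) : ∑ y, g (fl i y) = ∑ y, g y := by
  let e : (Fin n → Bool) ≃ (Fin n → Bool) := ⟨fl i, fl i, fl_fl i, fl_fl i⟩
  exact Fintype.sum_equiv e _ _ (fun y => rfl)

/-- the overlap is small if the local variations are large -/
lemma ov_le {p M0 : ℝ} (h0 : 0 < p) (h1 : p < 1 / 2) {C : Finset (Fin n → Bool)}
    (hC : C.Nonempty) (hM01 : M0 ≤ 1) :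
    Ov p C ≤ n * C.card * ((1 - (1 - 2 * p) ^ 2) / 2 * ((1 - M0) / (1 - (1 - 2 * p) ^ 2 * M0)) +
        (1 - (1 - 2 * p) ^ 2) ^ 2 / (2 * (1 - (1 - 2 * p) ^ 2 * M0) ^ 2) * M0) -
      (1 - (1 - 2 * p) ^ 2) ^ 2 / (2 * (1 - (1 - 2 * p) ^ 2 * M0) ^ 2) *
        (Ds (mix p C) / (2 * (1 - 2 * p) ^ 2)) := by
  set κ : ℝ := (1 - (1 - 2 * p) ^ 2) ^ 2 / (2 * (1 - (1 - 2 * p) ^ 2 * M0) ^ 2) with hκ
  set c0 : ℝ := (1 - (1 - 2 * p) ^ 2) / 2 * ((1 - M0) / (1 - (1 - 2 * p) ^ 2 * M0)) + κ * M0
    with hc0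
  have hp2 : (0 : ℝ) < 1 - 2 * p := by linarith
  have hi : ∀ i : Fin n, ∑ y, 2 * Aa p C i y * Bb p C i y / mix p C y ≤
      C.card * c0 - κ * ((∑ y, (mix p C y - mix p C (fl i y)) ^ 2 /
        (mix p C y + mix p C (fl i y))) / (2 * (1 - 2 * p) ^ 2)) := by
    intro i
    set F : (Fin n → Bool) → ℝ := fun y => 2 * Aa p C i y * Bb p C i y / mix p C y with hF
    have e1 : ∑ y, F y = (∑ y, (F y + F (fl i y))) / 2 := by
      rw [Finset.sum_add_distrib, sum_fl i F]
      ring
    have e2 : ∑ y, (mix p C y + mix p C (fl i y)) = 2 * C.card := by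
      rw [Finset.sum_add_distrib, sum_fl i (mix p C), sum_mix]
      ring
    have h2 : ∀ y, F y + F (fl i y) ≤ (mix p C y + mix p C (fl i y)) * c0 -
        κ / (1 - 2 * p) ^ 2 * ((mix p C y - mix p C (fl i y)) ^ 2 /
          (mix p C y + mix p C (fl i y))) := by
      intro y
      obtain ⟨α, β, hα, hβ, a1, a2, a3, a4, a5, a6⟩ := ab_rel h0 (by linarith : p < 1) C i y
      have hm := mix_pos h0 (by linarith : p < 1) hC y
      have hs : 0 < α + β := by
        rw [a3] at hm
        by_contra hcon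
        push Not at hcon
        have g1 : α = 0 := by linarith
        have g2 : β = 0 := by linarith
        rw [g1, g2] at hm
        simp at hm
      have h3 := pair_ineq h0 h1 hα hβ hs hM01
      rw [← hκ, ← hc0] at h3
      have e3 : F y + F (fl i y) = 2 * ((1 - p) * α) * (p * β) / ((1 - p) * α + p * β) +
          2 * ((1 - p) * α) * (p * β) / (p * α + (1 - p) * β) := by
        simp only [hF]
        rw [a1, a2, a3, a4, a5, a6]
        congr 1
        congr 1
        ring
      have e4 : mix p C y + mix p C (fl i y) = α + β := by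
        rw [a3, a4]
        ring
      have e5 : κ / (1 - 2 * p) ^ 2 * ((mix p C y - mix p C (fl i y)) ^ 2 / (α + β)) =
          κ * ((α - β) ^ 2 / (α + β)) := by
        rw [a3, a4]
        have : (1 - p) * α + p * β - (p * α + (1 - p) * β) = (1 - 2 * p) * (α - β) := by ring
        rw [this]
        field_simp
      rw [e3, e4, e5]
      exact h3
    have h4 := Finset.sum_le_sum fun y (_ : y ∈ (univ : Finset (Fin n → Bool))) => h2 y
    rw [Finset.sum_sub_distrib, ← Finset.sum_mul, e2, ← Finset.mul_sum] at h4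
    rw [e1]
    have e6 : κ * ((∑ y, (mix p C y - mix p C (fl i y)) ^ 2 /
        (mix p C y + mix p C (fl i y))) / (2 * (1 - 2 * p) ^ 2)) =
        κ / (1 - 2 * p) ^ 2 * (∑ y, (mix p C y - mix p C (fl i y)) ^ 2 /
        (mix p C y + mix p C (fl i y))) / 2 := by
      field_simp
    rw [e6]
    linarith
  unfold Ov
  refine (Finset.sum_le_sum fun i _ => hi i).trans (le_of_eq ?_)
  rw [Finset.sum_sub_distrib]
  congr 1
  · simp only [Finset.sum_const, Finset.card_univ, Fintype.card_fin, nsmul_eq_mul]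
    ring
  · rw [← Finset.mul_sum, ← Finset.sum_div]
    rfl

/-- the local variations are bounded -/
lemma mix_lip {p : ℝ} (h0 : 0 < p) (h1 : p < 1 / 2) (C : Finset (Fin n → Bool))
    (i : Fin n) (y : Fin n → Bool) :
    |mix p C y - mix p C (fl i y)| ≤ (1 - 2 * p) * (mix p C y + mix p C (fl i y)) := by
  obtain ⟨α, β, hα, hβ, a1, a2, a3, a4, a5, a6⟩ := ab_rel h0 (by linarith : p < 1) C i y
  rw [a3, a4, abs_le]
  constructor <;> nlinarith

lemma Ds_le {p : ℝ} (h0 : 0 < p) (h1 : p < 1 / 2) {C : Finset (Fin n → Bool)}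
    (hC : C.Nonempty) : Ds (mix p C) / (2 * (1 - 2 * p) ^ 2) ≤ n * C.card := by
  have hp2 : (0 : ℝ) < 1 - 2 * p := by linarith
  rw [div_le_iff₀ (by positivity)]
  have h2 : ∀ i : Fin n, ∑ y, (mix p C y - mix p C (fl i y)) ^ 2 /
      (mix p C y + mix p C (fl i y)) ≤ (1 - 2 * p) ^ 2 * (2 * C.card) := by
    intro i
    have e2 : ∑ y, (mix p C y + mix p C (fl i y)) = 2 * C.card := by
      rw [Finset.sum_add_distrib, sum_fl i (mix p C), sum_mix]
      ring
    rw [← e2, Finset.mul_sum]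
    apply Finset.sum_le_sum
    intro y _
    have hs : 0 < mix p C y + mix p C (fl i y) :=
      add_pos (mix_pos h0 (by linarith) hC _) (mix_pos h0 (by linarith) hC _)
    rw [div_le_iff₀ hs]
    have h3 := mix_lip h0 h1 C i y
    have h4 := pow_le_pow_left₀ (abs_nonneg _) h3 2
    rw [sq_abs] at h4
    calc _ ≤ _ := h4
      _ = _ := by ring
  unfold Ds
  refine (Finset.sum_le_sum fun i _ => h2 i).trans (le_of_eq ?_)
  simp only [Finset.sum_const, Finset.card_univ, Fintype.card_fin, nsmul_eq_mul]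
  ring

/-- the equivocation and the entropy of the received word -/
lemma eqv_S {p : ℝ} (h0 : 0 < p) (h1 : p < 1) {C : Finset (Fin n → Bool)} (hC : C.Nonempty) :
    eqv p C * Real.log 2 = n * Real.binEntropy p + S (mix p C) / C.card := by
  have hlog : Real.log 2 ≠ 0 := (Real.log_pos (by norm_num)).ne'
  have hc : (0 : ℝ) < C.card := by exact_mod_cast hC.card_pos
  unfold eqv
  rw [Finset.sum_congr rfl fun x _ => pe_eq h0 h1 hC x, Finset.sum_sub_distrib,
    Finset.sum_const, nsmul_eq_mul, ← Finset.sum_div, sum_ex]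
  have e1 : ∑ y, mix p C y * fC p C y = -S (mix p C) + C.card * Real.log C.card := by
    unfold S
    rw [← sum_mix p C, Finset.sum_mul, ← Finset.sum_neg_distrib, ← Finset.sum_add_distrib]
    apply Finset.sum_congr rfl
    intro y _
    unfold fC
    rw [Real.log_div (mix_pos h0 h1 hC y).ne' hc.ne', sum_mix]
    ring
  have e2 : H p = Real.binEntropy p / Real.log 2 :=
    Pool.Agent.Results.MP_0430e4_lc.ConstantWeightCriterion.H_eq' p
  rw [e1, e2]
  unfold Real.logb
  field_simp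
  ring

lemma H_log (p : ℝ) : H p * Real.log 2 = Real.binEntropy p := by
  have hlog : Real.log 2 ≠ 0 := (Real.log_pos (by norm_num)).ne'
  have e2 : H p = Real.binEntropy p / Real.log 2 :=
    Pool.Agent.Results.MP_0430e4_lc.ConstantWeightCriterion.H_eq' p
  rw [e2]
  field_simp

/-- the growth of the equivocation is at most that of the entropy of the noise -/
lemma eqv_up {p p' : ℝ} (h0 : 0 < p) (hp : p < 1 / 2) (hpp : p ≤ p') (hp' : p' ≤ 1 / 2)
    {C : Finset (Fin n → Bool)} (hC : C.Nonempty) :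
    eqv p' C ≤ eqv p C + n * (H p' - H p) := by
  have hlog : 0 < Real.log 2 := Real.log_pos (by norm_num)
  have hc : (0 : ℝ) < C.card := by exact_mod_cast hC.card_pos
  have hp2 : (0 : ℝ) < 1 - 2 * p := by linarith
  set q : ℝ := (p' - p) / (1 - 2 * p) with hq
  have hq0 : 0 ≤ q := div_nonneg (by linarith) hp2.le
  have hq1 : q ≤ 1 / 2 := by
    rw [hq, div_le_iff₀ hp2]
    linarith
  have e : p + (1 - 2 * p) * q = p' := by
    rw [hq, mul_div_cancel₀ _ hp2.ne']
    ring
  have hT := T_mix p q C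
  rw [e] at hT
  have h1 := S_T_le hq0 (by linarith) (mix p C) (fun y => (mix_pos h0 (by linarith) hC y).le)
  rw [hT] at h1
  have a1 := eqv_S h0 (by linarith : p < 1) hC
  have a2 := eqv_S (by linarith : 0 < p') (by linarith : p' < 1) hC
  have a3 : S (mix p' C) / C.card ≤ S (mix p C) / C.card :=
    div_le_div_of_nonneg_right h1 hc.le
  have b1 := H_log p
  have b2 := H_log p'
  have h2 : eqv p' C * Real.log 2 ≤ (eqv p C + n * (H p' - H p)) * Real.log 2 := by
    have : (eqv p C + n * (H p' - H p)) * Real.log 2 =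
        eqv p C * Real.log 2 + n * (H p' * Real.log 2 - H p * Real.log 2) := by ring
    rw [this, a1, a2, b1, b2]
    linarith
  exact le_of_mul_le_mul_right h2 hlog

/-- the growth of the equivocation in terms of the local variations -/
lemma eqv_down {p p' : ℝ} (h0 : 0 < p) (hp : p < 1 / 2) (hpp : p ≤ p') (hp' : p' ≤ 1 / 2)
    {C : Finset (Fin n → Bool)} (hC : C.Nonempty) :
    eqv p C + (n - Ds (mix p C) / (2 * (1 - 2 * p) ^ 2) / C.card) * (H p' - H p) ≤
      eqv p' C := by
  have hlog : 0 < Real.log 2 := Real.log_pos (by norm_num)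
  have hc : (0 : ℝ) < C.card := by exact_mod_cast hC.card_pos
  have hp2 : (0 : ℝ) < 1 - 2 * p := by linarith
  set q : ℝ := (p' - p) / (1 - 2 * p) with hq
  have hq0 : 0 ≤ q := div_nonneg (by linarith) hp2.le
  have hq1 : q ≤ 1 / 2 := by
    rw [hq, div_le_iff₀ hp2]
    linarith
  have e : p + (1 - 2 * p) * q = p' := by
    rw [hq, mul_div_cancel₀ _ hp2.ne']
    ring
  have hT := T_mix p q C
  rw [e] at hT
  have h1 := growth (t := 1 - 2 * p) (q := q) hp2 (by linarith) hq0 hq1 n (mix p C)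
    (fun y => mix_pos h0 (by linarith) hC y) (fun i y => mix_lip h0 hp C i y)
  rw [hT] at h1
  have e2 : (1 - 2 * q) * (1 - 2 * p) = 1 - 2 * p' := by
    rw [← e]
    ring
  rw [e2, Gf_binEntropy h0 (by linarith), Gf_binEntropy (by linarith : 0 < p') (by linarith),
    ← H_log p, ← H_log p'] at h1
  have a1 := eqv_S h0 (by linarith : p < 1) hC
  have a2 := eqv_S (by linarith : 0 < p') (by linarith : p' < 1) hC
  rw [← H_log p] at a1
  rw [← H_log p'] at a2
  have a3 : (S (mix p C) - S (mix p' C)) / C.card ≤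
      (Real.log 2 * (H p' - H p)) * (Ds (mix p C) / (2 * (1 - 2 * p) ^ 2)) / C.card := by
    apply div_le_div_of_nonneg_right _ hc.le
    refine h1.trans (le_of_eq ?_)
    field_simp
    ring
  rw [sub_div] at a3
  have h2 : (eqv p C + (n - Ds (mix p C) / (2 * (1 - 2 * p) ^ 2) / C.card) * (H p' - H p)) *
      Real.log 2 ≤ eqv p' C * Real.log 2 := by
    have : (eqv p C + (n - Ds (mix p C) / (2 * (1 - 2 * p) ^ 2) / C.card) * (H p' - H p)) *
        Real.log 2 = eqv p C * Real.log 2 + n * (H p' * Real.log 2 - H p * Real.log 2) -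
        (Real.log 2 * (H p' - H p)) * (Ds (mix p C) / (2 * (1 - 2 * p) ^ 2)) / C.card := by
      ring
    rw [this, a1, a2]
    linarith
  exact le_of_mul_le_mul_right h2 hlog

end Pool.Agent.Helper84.Thresh
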