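import Pool.Agent.Helper84.Thresh.Asym

/-!
The slope of the curve of the equivocation above the threshold.
-/

set_option autoImplicit false

namespace Pool.Agent.Helper84.Thresh

open Finset Filter Topology
open Pool.Agent.Helper89K9.GV (kern mix eqv pe kern_nonneg kern_pos mix_pos eqv_nonneg eqv_le_log
  log_card_le single_code ex sum_ex sum_mix sum_kern)
open Pool.Agent.Results.MP_0430e4_lc.ConstantWeightCriterion (IsCode H A R)

section fixed

variable {n : ℕ}

/-- `|C|` times the equivocation -/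
noncomputable def F (p : ℝ) (C : Finset (Fin n → Bool)) : ℝ := ∑ x ∈ C, pe p C x

lemma F_erase {p : ℝ} (h0 : 0 < p) (h1 : p < 1) {C : Finset (Fin n → Bool)} {x : Fin n → Bool}
    (hx : x ∈ C) : F p C ≤ F p (C.erase x) + pe p C x + 1 / Real.log 2 := by
  classical
  have hlog : 0 < Real.log 2 := Real.log_pos (by norm_num)
  unfold F
  rw [← Finset.add_sum_erase C _ hx]
  rcases (C.erase x).eq_empty_or_nonempty with he | hne
  · rw [he]
    simp only [Finset.sum_empty, add_zero, zero_add]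
    have : 0 < 1 / Real.log 2 := by positivity
    linarith
  · have h2 : ∀ z ∈ C.erase x, pe p C z ≤ pe p (C.erase x) z +
        ex p z (fun y => kern p x y / mix p (C.erase x) y) / Real.log 2 := by
      intro z _
      unfold pe ex
      rw [Finset.sum_div, ← Finset.sum_add_distrib]
      apply Finset.sum_le_sum
      intro y _
      have k1 := kern_pos h0 h1 z y
      have k2 := kern_pos h0 h1 x y
      have m1 := mix_pos h0 h1 hne y
      have e1 : mix p C y = kern p x y + mix p (C.erase x) y := by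
        unfold mix
        rw [Finset.add_sum_erase C (fun x => kern p x y) hx]
      have m2 : 0 < mix p C y := by
        rw [e1]
        linarith
      have h3 := Real.log_le_sub_one_of_pos (div_pos m2 m1)
      rw [Real.log_div m2.ne' m1.ne'] at h3
      have e2 : mix p C y / mix p (C.erase x) y - 1 = kern p x y / mix p (C.erase x) y := by
        rw [e1]
        field_simp
        ring
      rw [e2] at h3
      rw [mul_div_assoc, ← mul_add]
      apply mul_le_mul_of_nonneg_left _ k1.le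
      unfold Real.logb
      rw [← add_div]
      apply div_le_div_of_nonneg_right _ hlog.le
      rw [Real.log_div m2.ne' k1.ne', Real.log_div m1.ne' k1.ne']
      linarith
    have h4 := Finset.sum_le_sum h2
    rw [Finset.sum_add_distrib, ← Finset.sum_div, sum_ex] at h4
    have e3 : ∑ y, mix p (C.erase x) y * (kern p x y / mix p (C.erase x) y) = 1 := by
      rw [← sum_kern p x]
      apply Finset.sum_congr rfl
      intro y _
      have m1 := mix_pos h0 h1 hne y
      field_simp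
    rw [e3] at h4
    linarith

lemma peelF {p : ℝ} (h0 : 0 < p) (h1 : p < 1 / 2) (hn : 1 ≤ n) : ∀ (k : ℕ)
    (C : Finset (Fin n → Bool)), C.card = k →
      ∃ C' ⊆ C, (∀ x ∈ C', 1 / 2 < miss p C' x) ∧
        F p C ≤ F p C' + (√n * Kc p + 1 / Real.log 2) * ((C.card : ℝ) - C'.card) := by
  classical
  intro k
  induction k with
  | zero =>
    intro C hC
    rw [Finset.card_eq_zero] at hC
    subst hC
    exact ⟨∅, Finset.Subset.refl _, by simp, by simp⟩
  | succ k ih =>
    intro C hC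
    by_cases hall : ∀ x ∈ C, 1 / 2 < miss p C x
    · exact ⟨C, Finset.Subset.refl _, hall, by simp⟩
    · push Not at hall
      obtain ⟨x, hx, hxm⟩ := hall
      have hcard : (C.erase x).card = k := by
        rw [Finset.card_erase_of_mem hx]
        omega
      obtain ⟨C', hsub, hm, hF⟩ := ih (C.erase x) hcard
      refine ⟨C', hsub.trans (Finset.erase_subset _ _), hm, ?_⟩
      have h2 := F_erase h0 (by linarith : p < 1) hx
      have h3 := pe_good h0 h1 hx hn hxm
      rw [hcard] at hF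
      rw [hC]
      push_cast
      linarith

/-- the core of a code with large equivocation -/
lemma eqv_core {p : ℝ} (h0 : 0 < p) (h1 : p < 1 / 2) (hn : 1 ≤ n) {C : Finset (Fin n → Bool)}
    (hC : C.Nonempty) (hbig : √n * Kc p + 1 / Real.log 2 < eqv p C) :
    ∃ C' ⊆ C, C'.Nonempty ∧ (∀ x ∈ C', 1 / 2 < miss p C' x) ∧
      eqv p C - (√n * Kc p + 1 / Real.log 2) ≤ eqv p C' := by
  have hlog : 0 < Real.log 2 := Real.log_pos (by norm_num)
  obtain ⟨C', hsub, hm, hF⟩ := peelF h0 h1 hn _ C rfl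
  set KK : ℝ := √n * Kc p + 1 / Real.log 2 with hKK
  have hKK0 : 0 ≤ KK := by
    have := Kc_nonneg p
    positivity
  have hc : (0 : ℝ) < C.card := by exact_mod_cast hC.card_pos
  have hFC : F p C = eqv p C * C.card := by
    unfold eqv F
    rw [div_mul_cancel₀ _ hc.ne']
  have h2 : (eqv p C - KK) * C.card ≤ F p C' := by
    have : 0 ≤ KK * (C'.card : ℝ) := by positivity
    rw [hFC] at hF
    linarith
  have hne : C'.Nonempty := by
    by_contra hcon
    rw [Finset.not_nonempty_iff_eq_empty] at hcon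
    subst hcon
    have e : F p (∅ : Finset (Fin n → Bool)) = 0 := by
      unfold F
      simp
    rw [e] at h2
    have : 0 < (eqv p C - KK) * C.card := mul_pos (by linarith) hc
    linarith
  refine ⟨C', hsub, hne, hm, ?_⟩
  have hc' : (0 : ℝ) < C'.card := by exact_mod_cast hne.card_pos
  have hcc : (C'.card : ℝ) ≤ C.card := by exact_mod_cast Finset.card_le_card hsub
  have hF' : F p C' = eqv p C' * C'.card := by
    unfold eqv F
    rw [div_mul_cancel₀ _ hc'.ne']
  rw [hF'] at h2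
  have h3 : (eqv p C - KK) * C'.card ≤ (eqv p C - KK) * C.card :=
    mul_le_mul_of_nonneg_left hcc (by linarith)
  exact le_of_mul_le_mul_right (h3.trans h2) hc'

/-- the local variations of a confused code -/
lemma core_var {δ p ε : ℝ} (hδ : 0 < δ) (h0 : 0 < p) (h1 : p < 1 / 2)
    (hJ : δ ≤ 2 * p * (1 - p)) {C : Finset (Fin n → Bool)} (hC : C.Nonempty)
    (hcode : IsCode ⌈δ * n⌉₊ C) (hε : 0 ≤ ε) (hm : ∀ x ∈ C, 1 - ε ≤ miss p C x) :
    n * (lam δ p - δ * ε / (8 * p ^ 2 * (1 - p) ^ 2)) ≤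
      n - Ds (mix p C) / (2 * (1 - 2 * p) ^ 2) / C.card := by
  have hc : (0 : ℝ) < C.card := by exact_mod_cast hC.card_pos
  have hn : (0 : ℝ) ≤ n := Nat.cast_nonneg n
  have h1p : 0 < 1 - p := by linarith
  have hv : 0 < 2 * p * (1 - p) := by positivity
  set v : ℝ := 2 * p * (1 - p) with hvdef
  have hr : (1 - 2 * p) ^ 2 = 1 - 2 * v := by rw [hvdef]; ring
  have hr0 : 0 < 1 - 2 * v := by
    rw [← hr]
    have : (0 : ℝ) < 1 - 2 * p := by linarith
    positivity
  have hD : 0 < v - δ * (1 - 2 * v) := by nlinarith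
  set M0 : ℝ := (v - δ) / (v - δ * (1 - 2 * v)) with hM0
  have hM00 : 0 ≤ M0 := div_nonneg (by linarith) hD.le
  have hM01 : M0 ≤ 1 := by
    rw [hM0, div_le_one hD]
    nlinarith
  have hlam : lam δ p = 1 - M0 := by
    unfold lam
    rw [hM0, hr]
    have e1 : 4 * δ * p * (1 - p) = 2 * δ * v := by rw [hvdef]; ring
    have e2 : 2 * p * (1 - p) - δ * (1 - 2 * v) = v - δ * (1 - 2 * v) := by rw [hvdef]
    rw [e1, e2]
    field_simp
    ring
  have hle := ov_le h0 h1 hC hM01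
  have hge := ov_ge h0 (by linarith : p < 1) hC (Δ := δ * n) (by
    intro x hx z hz hxz
    exact dist_of_code hcode hx z (Finset.mem_erase.2 ⟨hxz.symm, hz⟩))
  have hpsi := psi_ge hm
  rw [hr] at hle
  set X : ℝ := Ds (mix p C) / (2 * (1 - 2 * p) ^ 2) with hX
  have hX' : Ds (mix p C) / (2 * (1 - 2 * v)) = X := by rw [hX, hr]
  rw [hX'] at hle
  have h1r : 1 - (1 - 2 * v) * M0 = v * (2 * v) / (v - δ * (1 - 2 * v)) := by
    rw [hM0, eq_div_iff hD.ne', sub_mul, mul_assoc, div_mul_cancel₀ _ hD.ne']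
    ring
  have hrM : 0 < 1 - (1 - 2 * v) * M0 := by
    rw [h1r]
    positivity
  set κ : ℝ := (1 - (1 - 2 * v)) ^ 2 / (2 * (1 - (1 - 2 * v) * M0) ^ 2) with hκ
  have hκ0 : 8 * p ^ 2 * (1 - p) ^ 2 ≤ κ := by
    have e : 8 * p ^ 2 * (1 - p) ^ 2 = 2 * v ^ 2 := by rw [hvdef]; ring
    rw [e, hκ, le_div_iff₀ (by positivity)]
    have h5 : 1 - (1 - 2 * v) * M0 ≤ 1 := by
      have := mul_nonneg hr0.le hM00
      linarith
    have h6 : (1 - (1 - 2 * v) * M0) ^ 2 ≤ 1 := pow_le_one₀ hrM.le h5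
    nlinarith [sq_nonneg v]
  have hκp : 0 < κ := lt_of_lt_of_le (by positivity) hκ0
  have ho : (1 - (1 - 2 * v)) / 2 * ((1 - M0) / (1 - (1 - 2 * v) * M0)) = δ := by
    have e1 : 1 - M0 = δ * (2 * v) / (v - δ * (1 - 2 * v)) := by
      rw [hM0, eq_div_iff hD.ne', sub_mul, div_mul_cancel₀ _ hD.ne']
      ring
    rw [h1r, e1, div_div_div_cancel_right₀ hD.ne']
    field_simp
    ring
  rw [ho] at hle
  have h7 : δ * n * ((1 - ε) * C.card) ≤ n * C.card * (δ + κ * M0) - κ * X := by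
    refine le_trans ?_ (hge.trans hle)
    exact mul_le_mul_of_nonneg_left hpsi (by positivity)
  have h8 : κ * X ≤ κ * (n * C.card * (M0 + δ * ε / κ)) := by
    have : κ * (n * C.card * (M0 + δ * ε / κ)) = n * C.card * (κ * M0 + δ * ε) := by
      field_simp
    rw [this]
    linarith
  have h9 : X ≤ n * C.card * (M0 + δ * ε / κ) := le_of_mul_le_mul_left h8 hκp
  have h10 : X / C.card ≤ n * (M0 + δ * ε / κ) := by
    rw [div_le_iff₀ hc]
    linarith
  have h11 : δ * ε / κ ≤ δ * ε / (8 * p ^ 2 * (1 - p) ^ 2) :=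
    div_le_div_of_nonneg_left (by positivity) (by positivity) hκ0
  have h12 := mul_le_mul_of_nonneg_left h11 hn
  rw [hlam]
  linarith

lemma eqv_mono {p p' : ℝ} (h0 : 0 < p) (hp : p < 1 / 2) (hpp : p ≤ p') (hp' : p' ≤ 1 / 2)
    {C : Finset (Fin n → Bool)} (hC : C.Nonempty) : eqv p C ≤ eqv p' C := by
  have hc : (0 : ℝ) < C.card := by exact_mod_cast hC.card_pos
  have h1 := eqv_down h0 hp hpp hp' hC
  have h2 := Ds_le h0 hp hC
  have h3 : Ds (mix p C) / (2 * (1 - 2 * p) ^ 2) / C.card ≤ n := by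
    rw [div_le_iff₀ hc]
    exact h2
  have h5 := H_mono h0 hpp hp'
  have h6 : 0 ≤ (n - Ds (mix p C) / (2 * (1 - 2 * p) ^ 2) / C.card) * (H p' - H p) :=
    mul_nonneg (by linarith) (by linarith)
  linarith

end fixed

/-- confused codes with nearly the largest equivocation -/
lemma confused_eqv {δ p p1 : ℝ} (hδ : 0 < δ) (hp : th δ < p) (h1 : p < p1) (h2 : p1 < 1 / 2)
    {η : ℝ} (hη : 0 < η) : ∃ c : ℝ, 0 < c ∧ ∃ᶠ n : ℕ in atTop, ∃ C : Finset (Fin n → Bool),
      C.Nonempty ∧ IsCode ⌈δ * n⌉₊ C ∧ (∀ x ∈ C, 1 - Real.exp (-(c * n)) ≤ miss p1 C x) ∧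
        (Er δ p - η) * n ≤ eqv p C := by
  have ht := th_nonneg δ
  have h0 : 0 < p := by linarith
  have hlog : 0 < Real.log 2 := Real.log_pos (by norm_num)
  rcases le_or_gt (Er δ p) η with hE | hE
  · obtain ⟨c, hc, h⟩ := confused hδ (hp.trans h1) h2
    refine ⟨c, hc, h.mono ?_⟩
    rintro n ⟨C, hC, hcode, hm⟩
    refine ⟨C, hC, hcode, hm, ?_⟩
    have h3 := eqv_nonneg h0 (by linarith : p < 1) C
    have hn : (0 : ℝ) ≤ n := Nat.cast_nonneg n
    nlinarith
  · obtain ⟨c, hc, h⟩ := dich h0 h1 h2 hδ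
    refine ⟨c, hc, ?_⟩
    have h3 := lt_Er h0 (by linarith : p < 1) (by linarith : Er δ p - η / 2 < Er δ p)
    have h4 := sqrt_small (K := Kc p) (by linarith : 0 < η / 8)
    have h5 : ∀ᶠ n : ℕ in atTop, 1 / Real.log 2 ≤ η / 8 * n :=
      ((tendsto_natCast_atTop_atTop (R := ℝ)).const_mul_atTop
        (by linarith : 0 < η / 8)).eventually (eventually_ge_atTop _)
    have h6 : ∀ᶠ n : ℕ in atTop, Real.exp (-(c * n)) < 1 / 2 :=
      (tendsto_exp hc).eventually (gt_mem_nhds (by norm_num))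
    refine (h3.and_eventually (h4.and (h5.and (h6.and (eventually_ge_atTop 1))))).mono ?_
    rintro n ⟨a1, a2, a3, a4, hn⟩
    have hn0 : (0 : ℝ) < n := by exact_mod_cast hn
    obtain ⟨C, hC, hcode, hEq⟩ := exists_mE δ p n
    rw [← hEq] at a1
    obtain ⟨C', hsub, hne, hm, hE'⟩ := eqv_core h0 (by linarith : p < 1 / 2) hn hC (by
      nlinarith)
    refine ⟨C', hne, code_sub hcode hsub, fun x hx => ?_, by nlinarith⟩
    rcases h n C' x hx (dist_of_code (code_sub hcode hsub) hx) with h7 | h7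
    · have := hm x hx
      linarith
    · exact h7

lemma slope_core {δ p p1 p2 : ℝ} (hδ : 0 < δ) (hp : th δ < p) (h1 : p < p1) (h2 : p1 < 1 / 2)
    (h12 : p1 ≤ p2) (h3 : p2 ≤ 1 / 2) (hJ : δ ≤ 2 * p1 * (1 - p1)) :
    Er δ p + lam δ p1 * (H p2 - H p1) ≤ Er δ p2 := by
  have ht := th_nonneg δ
  have h0 : 0 < p := by linarith
  have h10 : 0 < p1 := by linarith
  have hL : 0 ≤ H p2 - H p1 := by
    have := H_mono h10 h12 h3
    linarith
  set L : ℝ := H p2 - H p1 with hLdef
  apply le_of_forall_pos_le_add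
  intro η hη
  obtain ⟨c, hc, h⟩ := confused_eqv hδ hp h1 h2 (by linarith : 0 < η / 2)
  have h4 : Er δ p + lam δ p1 * L - η ≤ Er δ p2 := by
    apply le_Er (by linarith) (by linarith)
    set D : ℝ := 8 * p1 ^ 2 * (1 - p1) ^ 2 with hD
    have hD0 : 0 < D := by
      have : 0 < 1 - p1 := by linarith
      positivity
    have h5 : Tendsto (fun n : ℕ => δ * Real.exp (-(c * n)) / D * L) atTop (𝓝 0) := by
      have := ((tendsto_exp hc).const_mul δ).div_const D |>.mul_const L
      simpa using this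
    have h6 : ∀ᶠ n : ℕ in atTop, δ * Real.exp (-(c * n)) / D * L < η / 2 :=
      h5.eventually (gt_mem_nhds (by linarith))
    refine (h.and_eventually h6).mono ?_
    rintro n ⟨⟨C, hC, hcode, hm, hE⟩, a1⟩
    have hn : (0 : ℝ) ≤ n := Nat.cast_nonneg n
    have g1 := core_var hδ h10 h2 hJ hC hcode (Real.exp_pos _).le hm
    have g2 := eqv_down h10 h2 h12 h3 hC
    have g3 := eqv_mono h0 (by linarith : p < 1 / 2) h1.le h2.le hC
    have g4 := le_mE (p := p2) (δ := δ) (by linarith) (by linarith) hC hcode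
    have g5 := mul_le_mul_of_nonneg_right g1 hL
    rw [← hD] at g5
    have g6 : n * (lam δ p1 - δ * Real.exp (-(c * n)) / D) * L =
        lam δ p1 * L * n - (δ * Real.exp (-(c * n)) / D * L) * n := by ring
    rw [g6] at g5
    have g7 := mul_le_mul_of_nonneg_right a1.le hn
    have g8 : (Er δ p + lam δ p1 * L - η) * n =
        (Er δ p - η / 2) * n + lam δ p1 * L * n - η / 2 * n := by ring
    rw [g8]
    linarith
  linarith

lemma confJ {δ p : ℝ} (hδ : 0 < δ) (hp : th δ < p) (hp2 : p < 1 / 2) : δ ≤ 2 * p * (1 - p) := by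
  have ht := th_nonneg δ
  have h0 : 0 < p := by linarith
  by_contra hcon
  push Not at hcon
  obtain ⟨c, hc, h⟩ := confused hδ hp hp2
  have h6 : Tendsto (fun n : ℕ => δ * (1 - Real.exp (-(c * n)))) atTop (𝓝 (δ * (1 - 0))) :=
    ((tendsto_exp hc).const_sub 1).const_mul δ
  have h7 : ∀ᶠ n : ℕ in atTop, 2 * p * (1 - p) < δ * (1 - Real.exp (-(c * n))) :=
    h6.eventually (lt_mem_nhds (by linarith))
  obtain ⟨n, ⟨C, hC, hcode, hm⟩, a1, hn⟩ :=
    (h.and_eventually (h7.and (eventually_ge_atTop 1))).exists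
  have hn0 : (0 : ℝ) < n := by exact_mod_cast hn
  have hcc : (0 : ℝ) < C.card := by exact_mod_cast hC.card_pos
  have hle := ov_le h0 hp2 hC (M0 := 0) (by norm_num)
  have hge := ov_ge h0 (by linarith : p < 1) hC (Δ := δ * n) (by
    intro x hx z hz hxz
    exact dist_of_code hcode hx z (Finset.mem_erase.2 ⟨hxz.symm, hz⟩))
  have hpsi := psi_ge hm
  have hX : 0 ≤ Ds (mix p C) / (2 * (1 - 2 * p) ^ 2) := by
    apply div_nonneg _ (by positivity)
    apply Finset.sum_nonneg
    intro i _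
    apply Finset.sum_nonneg
    intro y _
    exact div_nonneg (sq_nonneg _)
      (add_pos (mix_pos h0 (by linarith) hC _) (mix_pos h0 (by linarith) hC _)).le
  simp only [mul_zero, sub_zero, one_pow, mul_one, div_one, add_zero] at hle
  have e1 : (1 - (1 - 2 * p) ^ 2) / 2 = 2 * p * (1 - p) := by ring
  rw [e1] at hle
  have hκ : 0 ≤ (1 - (1 - 2 * p) ^ 2) ^ 2 / 2 * (Ds (mix p C) / (2 * (1 - 2 * p) ^ 2)) := by
    positivity
  have h8 : δ * n * ((1 - Real.exp (-(c * n))) * C.card) ≤ n * C.card * (2 * p * (1 - p)) := by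
    refine (mul_le_mul_of_nonneg_left hpsi (by positivity)).trans (hge.trans ?_)
    linarith
  have h9 : (n * C.card) * (δ * (1 - Real.exp (-(c * n)))) ≤
      (n * C.card) * (2 * p * (1 - p)) := by linarith
  have h10 := le_of_mul_le_mul_left h9 (by positivity)
  linarith

/-! ### the rate of the best codes -/

lemma mE_half (δ : ℝ) (n : ℕ) : mE δ (1 / 2) n = Real.logb 2 (A n ⌈δ * n⌉₊) := by
  have he : ∀ C : Finset (Fin n → Bool), C.Nonempty → eqv (1 / 2) C = Real.logb 2 C.card := by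
    intro C hC
    apply le_antisymm (eqv_le_log (by norm_num) (by norm_num) hC)
    have h := Pool.Agent.Helper89K9.GV.eqv_ge (δ := 1 / 2) (by norm_num) (by norm_num) hC
    rw [H_half] at h
    linarith
  apply le_antisymm
  · obtain ⟨C, hC, hcode, hE⟩ := exists_mE δ (1 / 2) n
    rw [← hE, he C hC]
    apply Real.logb_le_logb_of_le (by norm_num)
    · exact_mod_cast hC.card_pos
    · exact_mod_cast Pool.Agent.Results.MP_0430e4_lc.ConstantWeightCriterion.card_le_A hcode
  · obtain ⟨C, hcode, hcard⟩ :=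
      Pool.Agent.Results.MP_0430e4_lc.ConstantWeightCriterion.exists_A n ⌈δ * n⌉₊
    have hC : C.Nonempty := by
      rw [← Finset.card_pos, hcard]
      exact Pool.Agent.Results.MP_0430e4_lc.ConstantWeightCriterion.A_pos _ _
    rw [← hcard, ← he C hC]
    exact le_mE (by norm_num) (by norm_num) hC hcode

lemma Er_half (δ : ℝ) : Er δ (1 / 2) = R δ := by
  unfold Er R
  simp only [mE_half]

lemma gv {δ : ℝ} (h0 : 0 < δ) (h1 : δ < 1 / 2) : 1 - H δ ≤ R δ :=
  (Pool.Agent.Helper89K9.GV.gv h0 h1).1.trans (Pool.Agent.Helper89K9.GV.gv h0 h1).2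

lemma R_le_of_lt {δ p : ℝ} (hδ : 0 < δ) (h0 : 0 < p) (hp : p < th δ) : R δ ≤ 1 - H p := by
  have hp1 : p < 1 / 2 := hp.trans_le (th_le_half δ)
  have h := Er_up (δ := δ) h0 hp1 hp1.le le_rfl
  rw [Er_zero hδ h0 hp, Er_half, H_half] at h
  linarith

lemma th_le {δ : ℝ} (h0 : 0 < δ) (h1 : δ < 1 / 2) : th δ ≤ δ := by
  by_contra hcon
  push Not at hcon
  obtain ⟨p, hp1, hp2⟩ := exists_between hcon
  have h2 := R_le_of_lt h0 (by linarith : 0 < p) hp2
  have h3 := gv h0 h1
  have h4 := H_lt h0.le hp1 (hp2.le.trans (th_le_half δ))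
  linarith

/-- the radius of Johnson -/
noncomputable def Jr (δ : ℝ) : ℝ := (1 - √(1 - 2 * δ)) / 2

lemma Jr_eq {δ : ℝ} (h1 : δ < 1 / 2) : 2 * Jr δ * (1 - Jr δ) = δ := by
  have h := Real.sq_sqrt (by linarith : 0 ≤ 1 - 2 * δ)
  unfold Jr
  nlinarith

lemma Jr_lt {δ : ℝ} (h1 : δ < 1 / 2) : Jr δ < 1 / 2 := by
  have h := Real.sqrt_pos.2 (by linarith : 0 < 1 - 2 * δ)
  unfold Jr
  linarith

lemma Jr_pos {δ : ℝ} (h0 : 0 < δ) : 0 < Jr δ := by
  have h : √(1 - 2 * δ) < 1 := by
    rw [Real.sqrt_lt' one_pos]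
    linarith
  unfold Jr
  linarith

lemma Jr_le_th {δ : ℝ} (h0 : 0 < δ) (h1 : δ < 1 / 2) : Jr δ ≤ th δ := by
  by_contra hcon
  push Not at hcon
  obtain ⟨p, hp1, hp2⟩ := exists_between hcon
  have h2 := Jr_lt h1
  have h3 := confJ h0 hp1 (by linarith)
  have h4 := Jr_eq h1
  have h5 : (Jr δ - p) * (1 - Jr δ - p) > 0 := mul_pos (by linarith) (by linarith)
  nlinarith

lemma th_pos {δ : ℝ} (h0 : 0 < δ) (h1 : δ < 1 / 2) : 0 < th δ :=
  (Jr_pos h0).trans_le (Jr_le_th h0 h1)

lemma th_lt_half {δ : ℝ} (h0 : 0 < δ) (h1 : δ < 1 / 2) : th δ < 1 / 2 := (th_le h0 h1).trans_lt h1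

lemma J_cond {δ p : ℝ} (h0 : 0 < δ) (h1 : δ < 1 / 2) (hp : th δ ≤ p) (hp2 : p ≤ 1 / 2) :
    δ ≤ 2 * p * (1 - p) := by
  have h2 := (Jr_le_th h0 h1).trans hp
  have h3 := Jr_lt h1
  have h4 := Jr_eq h1
  have h5 : 0 ≤ (p - Jr δ) * (1 - Jr δ - p) := mul_nonneg (by linarith) (by linarith)
  nlinarith

lemma lam_den {δ p : ℝ} (h0 : 0 < δ) (hJ : δ ≤ 2 * p * (1 - p)) :
    0 < 2 * p * (1 - p) - δ * (1 - 2 * p) ^ 2 := by
  have h1 : (1 - 2 * p) ^ 2 < 1 := by nlinarith
  nlinarith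

lemma lam_pos {δ p : ℝ} (h0 : 0 < δ) (hp0 : 0 < p) (hp : p ≤ 1 / 2)
    (hJ : δ ≤ 2 * p * (1 - p)) : 0 < lam δ p := by
  unfold lam
  have h2 := lam_den h0 hJ
  have : 0 < 1 - p := by linarith
  positivity

lemma lam_le_one {δ p : ℝ} (h0 : 0 < δ) (hJ : δ ≤ 2 * p * (1 - p)) : lam δ p ≤ 1 := by
  unfold lam
  have h2 := lam_den h0 hJ
  rw [div_le_one h2]
  nlinarith

/-- **The slope of the curve.** -/
theorem slope {δ p p' : ℝ} (h0 : 0 < δ) (h1 : δ < 1 / 2) (hp : th δ ≤ p) (hpp : p ≤ p')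
    (hp' : p' ≤ 1 / 2) : Er δ p + lam δ p * (H p' - H p) ≤ Er δ p' := by
  rcases hpp.eq_or_lt with he | hlt
  · subst he
    simp
  have ht := th_pos h0 h1
  have hp0 : 0 < p := by linarith
  have h2 : ∀ᶠ p1 in 𝓝[>] p, Er δ p + lam δ p1 * (H p' - H p1) ≤ Er δ p' := by
    filter_upwards [Ioo_mem_nhdsGT hlt] with p1 hp1
    obtain ⟨p0, hp01, hp02⟩ := exists_between hp1.1
    have g1 := slope_core h0 (by linarith : th δ < p0) hp02 (by linarith [hp1.2]) hp1.2.le hp'
      (J_cond h0 h1 (by linarith [hp1.1]) (by linarith [hp1.2]))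
    have g2 := Er_mono (δ := δ) hp0 (by linarith) hp01.le (by linarith [hp1.2])
    linarith
  have hden := lam_den h0 (J_cond h0 h1 hp (by linarith))
  have h3 : ContinuousAt (fun p1 : ℝ => lam δ p1) p := by
    unfold lam
    exact ContinuousAt.div (by fun_prop) (by fun_prop) hden.ne'
  have h4 : ContinuousAt (fun p1 : ℝ => Er δ p + lam δ p1 * (H p' - H p1)) p := by
    apply ContinuousAt.add continuousAt_const
    apply h3.mul
    exact continuousAt_const.sub
      Pool.Agent.Results.MP_0430e4_lc.ConstantWeightCriterion.H_cont.continuousAt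
  exact le_of_tendsto (h4.tendsto.mono_left nhdsWithin_le_nhds) h2

end Pool.Agent.Helper84.Thresh
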